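import Mathlib
import Pool.Agent.Helper55.RotaRado

/-!
# Project MT: closures for rank functions on a finite type
-/

set_option autoImplicit false

namespace Pool.Agent.Helper28.MT

open Finset
open Pool.Agent.Helper55.Rota

variable {α : Type} [Fintype α] [DecidableEq α]

/-- The closure of `Y`. -/
def cl (R : RankFn α) (Y : Finset α) : Finset α :=
  univ.filter (fun x => R.r (insert x Y) ≤ R.r Y)

/-- Closed sets (flats). -/
def Closed (R : RankFn α) (F : Finset α) : Prop := ∀ x, R.r (insert x F) ≤ R.r F → x ∈ F

/-- The union of the blocks in `I`. -/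
def blkU {n : ℕ} (b : α → Fin n) (I : Finset (Fin n)) : Finset α := univ.filter (fun x => b x ∈ I)

/-- The level set of a potential. -/
def lev (v : α → ℕ) (m : ℕ) : Finset α := univ.filter (fun x => m ≤ v x)

lemma mem_cl {R : RankFn α} {Y : Finset α} {x : α} : x ∈ cl R Y ↔ R.r (insert x Y) ≤ R.r Y := by
  simp [cl]

lemma mem_lev {v : α → ℕ} {m : ℕ} {x : α} : x ∈ lev v m ↔ m ≤ v x := by simp [lev]

lemma mem_blkU {n : ℕ} {b : α → Fin n} {I : Finset (Fin n)} {x : α} : x ∈ blkU b I ↔ b x ∈ I := by
  simp [blkU]

lemma subset_cl (R : RankFn α) (Y : Finset α) : Y ⊆ cl R Y := by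
  intro x hx
  rw [mem_cl, insert_eq_self.mpr hx]

lemma r_cl (R : RankFn α) (Y : Finset α) : R.r (cl R Y) = R.r Y := by
  apply le_antisymm _ (R.mono (subset_cl R Y))
  have h := R.union_of_span Y (cl R Y) (fun z hz => mem_cl.mp hz)
  exact (R.mono subset_union_right).trans h

/-- an element spanned by `Y` is spanned by any bigger set -/
lemma span_mono (R : RankFn α) {Y Z : Finset α} (h : Y ⊆ Z) {x : α}
    (hx : R.r (insert x Y) ≤ R.r Y) : R.r (insert x Z) ≤ R.r Z := by
  have := R.add_gain_insert h x
  omega

lemma cl_mono (R : RankFn α) {Y Z : Finset α} (h : Y ⊆ Z) : cl R Y ⊆ cl R Z := by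
  intro x hx
  exact mem_cl.mpr (span_mono R h (mem_cl.mp hx))

lemma closed_cl (R : RankFn α) (Y : Finset α) : Closed R (cl R Y) := by
  intro x hx
  rw [mem_cl]
  have h1 : R.r (insert x Y) ≤ R.r (insert x (cl R Y)) :=
    R.mono (insert_subset_insert x (subset_cl R Y))
  rw [r_cl] at hx
  omega

lemma cl_subset {R : RankFn α} {Y F : Finset α} (hF : Closed R F) (h : Y ⊆ F) : cl R Y ⊆ F := by
  intro x hx
  exact hF x (span_mono R h (mem_cl.mp hx))

lemma cl_eq {R : RankFn α} {Y F : Finset α} (hF : Closed R F) (h : Y ⊆ F)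
    (hr : R.r F ≤ R.r Y) : cl R Y = F := by
  apply Subset.antisymm (cl_subset hF h)
  intro x hx
  rw [mem_cl]
  exact (R.mono (insert_subset hx h)).trans hr

lemma closed_univ (R : RankFn α) : Closed R (univ : Finset α) := fun x _ => mem_univ x

/-- a set of the full rank spans everything -/
lemma cl_full {R : RankFn α} {Y : Finset α} (h : R.r univ ≤ R.r Y) : cl R Y = univ :=
  cl_eq (closed_univ R) (subset_univ Y) h

/-- subsets of independent sets are independent -/
lemma indep_sub {R : RankFn α} {T : Finset α} (hT : T.card ≤ R.r T) {Y : Finset α} (h : Y ⊆ T) :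
    R.r Y = Y.card := by
  apply le_antisymm (R.le_card Y)
  have h1 := R.union_le Y (T \ Y)
  have h2 := R.le_card (T \ Y)
  have h3 := card_sdiff_add_card_eq_card h
  rw [union_sdiff_of_subset h] at h1
  omega

/-- a subset of a flat extends to a spanning set of the flat -/
lemma exists_extend {R : RankFn α} {F : Finset α} (hF : Closed R F) :
    ∀ (m : ℕ) (Y : Finset α), Y ⊆ F → R.r F - R.r Y = m →
      ∃ Q ⊆ F, Q.card = m ∧ cl R (Y ∪ Q) = F := by
  intro m
  induction m with
  | zero =>
    intro Y hY h
    refine ⟨∅, empty_subset F, rfl, ?_⟩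
    rw [union_empty]
    exact cl_eq hF hY (by omega)
  | succ m ih =>
    intro Y hY h
    have h1 : ¬ F ⊆ cl R Y := by
      intro h2
      have h3 := R.mono h2
      rw [r_cl] at h3
      omega
    rw [not_subset] at h1
    obtain ⟨x, hx, hx2⟩ := h1
    rw [mem_cl, not_le] at hx2
    have h4 := R.insert_le Y x
    obtain ⟨Q, hQ, hc, hcl⟩ := ih (insert x Y) (insert_subset hx hY) (by omega)
    by_cases hxQ : x ∈ Q
    · exfalso
      -- then `Q` has too few elements
      have h5 : insert x Y ∪ Q = Y ∪ Q := by
        ext a; simp only [mem_union, mem_insert]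
        constructor
        · rintro ((rfl | h) | h)
          · exact Or.inr hxQ
          · exact Or.inl h
          · exact Or.inr h
        · rintro (h | h)
          · exact Or.inl (Or.inr h)
          · exact Or.inr h
      rw [h5] at hcl
      have h6 : R.r F ≤ R.r Y + Q.card := by
        rw [← hcl, r_cl]
        have := R.union_le Y Q
        have := R.le_card Q
        omega
      omega
    · refine ⟨insert x Q, insert_subset hx hQ, by rw [card_insert_of_notMem hxQ, hc], ?_⟩
      rw [← hcl]
      congr 1
      ext a; simp only [mem_union, mem_insert]; tauto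

end Pool.Agent.Helper28.MT
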