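import Mathlib
import Pool.Agent.Helper28.MT.Basic

/-!
# Project MT (MP_bb782b_co): goals

Paper proof of the whole project: /team-store/MP_bb782b_co_helper28.md.
`R` is the rank function of a matroid of rank `n` on the finite type `α`, `b` the block of an
element.
-/

set_option autoImplicit false

namespace Pool.Agent.Helper28.MT

open Finset
open Pool.Agent.Helper55.Rota

/-- The set of a pattern `(e, g)`. -/
def Ufam {α : Type} [Fintype α] [DecidableEq α] (R : RankFn α) {n : ℕ} (b : α → Fin n)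
    (e : Fin n → α) (g : Fin n → Fin (n + 1)) : Finset α :=
  univ.filter (fun x => x ∉ cl R ((univ.filter (fun j : Fin n => (g (b x)).val ≤ j.val)).image e))

/-- The set of a pattern `(I, j, E, Q)`. -/
def Xfam {α : Type} [Fintype α] [DecidableEq α] (R : RankFn α) {n k : ℕ} (b : α → Fin n)
    (t : α → Fin k) (I : Finset (Fin n)) (j : Fin k) (E Q : Finset α) : Finset α :=
  blkU b I \ cl R (((blkU b I ∩ univ.filter (fun x => t x = j)) \ E) ∪ Q)

/-- `T`, `y`, `v` as in the weighted theorem of Rado. -/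
def Opt {α : Type} [Fintype α] [DecidableEq α] (R : RankFn α) (n : ℕ) (b : α → Fin n)
    (S : Finset α) (c : α → ℕ) (T : Finset α) (y : Fin n → ℕ) (v : α → ℕ) : Prop :=
  T ⊆ S ∧ (∀ i, (T.filter (fun x => b x = i)).card = 1) ∧ R.r T = n ∧
  (∀ m, Closed R (lev v m)) ∧
  (∀ x ∈ S, y (b x) ≤ v x + c x) ∧
  (∀ x ∈ T, y (b x) = v x + c x) ∧
  (∀ m, (T ∩ lev v m).card = R.r (lev v m))

/-- **MT-W** (weighted theorem of Rado). PROOF. Call `(y, v)` feasible if all `lev v m` are closed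
and `y (b x) ≤ v x + c x` on `S`. Let `D (y, v) = ∑ i, y i - ∑ m ≥ 1, r (lev v m)` (a finite sum,
`m ≤ sup v`). By Rado (`RankFn.rado` of Helper55.RotaRado with `J₀ = univ`, `A i` = the elements of
`S` of block `i`) there is a transversal `T0 ⊆ S` with `r T0 = n = |T0|`, and `D ≤ ∑ x ∈ T0, c x`
for every feasible pair, because `∑ i, y i = ∑ x ∈ T0, y (b x) ≤ ∑ x ∈ T0, (v x + c x)` and
`∑ x ∈ T0, v x = ∑ m ≥ 1, |T0 ∩ lev v m| ≤ ∑ m ≥ 1, r (lev v m)`. `(0, 0)` is feasible (`∅` is closed as there are no loops: `0 < r {x}`). Take a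
feasible pair with `D` maximal. Let `E = {x ∈ S : y (b x) = v x + c x}` and
`r_v Y = ∑ m ≥ 0, (r ((Y ∩ lev v m) ∪ lev v (m+1)) - r (lev v (m+1)))`: a `RankFn` (each summand
is; `lev v 0 = univ`). (1) If `|I| ≤ r_v (E ∩ blocks of I)` for all `I`, Rado for `r_v` gives a
transversal `T ⊆ E` with `r_v T ≥ n`. The `m`-th summand of `r_v T` is at most
`|T ∩ (lev v m \ lev v (m+1))|` and at most `r (lev v m) - r (lev v (m+1))`; both sum up to `n`, so
all are equalities; summing over `m ≥ u` gives `|T ∩ lev v u| = r (lev v u)`, and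
`r (T ∩ lev v u) = r (lev v u)` follows by downward induction on `u` (`lev v m` is spanned by
`(T ∩ lev v m) ∪ lev v (m+1)`). So `T` is as wanted. (2) Otherwise let `Y = E ∩ blocks of I` with
`r_v Y < |I|`. Put `y' = y + 1` on `I`, `v' x = v x + 1` if
`x ∈ cl ((Y ∩ lev v (v x)) ∪ lev v (v x + 1))` and `v' x = v x` otherwise. For `m ≥ 1`,
`lev v' m = cl ((Y ∩ lev v (m-1)) ∪ lev v m)` (contained in `lev v (m-1)`, which is closed), of rank
`r (lev v m)` plus the `(m-1)`-th summand of `r_v Y`. So `(y', v')` is feasible (an `x ∈ S` of a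
block of `I` that is tight is in `Y`, so `v' x = v x + 1`; the others have room) and
`D (y', v') = D (y, v) + |I| - r_v Y > D (y, v)`, a contradiction. -/
def G_W : Prop := ∀ (α : Type) [Fintype α] [DecidableEq α] (R : RankFn α) (n : ℕ) (b : α → Fin n)
  (S : Finset α) (c : α → ℕ), R.r univ = n → (∀ x, 0 < R.r {x}) →
  (∀ I : Finset (Fin n), I.card ≤ R.r (S ∩ blkU b I)) →
  ∃ (T : Finset α) (y : Fin n → ℕ) (v : α → ℕ), Opt R n b S c T y v

/-- **MT-K**. PROOF. Put `a = |I| - r F` for `F` closed. *Rado's condition:* for `I` let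
`F = cl (S ∩ blkU b I)`. If `r F = r (S ∩ blkU b I) < |I|`, then `S ∩ (blkU b I \ F) = ∅`, so the
hypothesis gives `k (|I| - r F) ≤ 0`, a contradiction. So `G_W` gives `T, y, v`. As
`∑ x ∈ T, c x = ∑ x ∈ T, y (b x) - ∑ x ∈ T, v x = ∑ i, y i - ∑ m ≥ 1, |T ∩ lev v m|
= ∑ m ≥ 1, (|I_m| - r (lev v m))` (integers; `I_m = {i : m ≤ y i}`), and for every `m ≥ 1` with
`|I_m| > r (lev v m)` the hypothesis gives
`k (|I_m| - r (lev v m)) ≤ 8 |S ∩ (blkU b I_m \ lev v m)|`, where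
`blkU b I_m \ lev v m = {x : v x < m ≤ y (b x)}`; summing over `m ≥ 1` the right side becomes
`8 ∑ x ∈ S, (y (b x) - v x)` (truncated subtraction of natural numbers). -/
def G_K : Prop := ∀ (α : Type) [Fintype α] [DecidableEq α] (R : RankFn α) (n k : ℕ)
  (b : α → Fin n) (S : Finset α) (c : α → ℕ), R.r univ = n → (∀ x, 0 < R.r {x}) → 0 < k →
  (∀ (I : Finset (Fin n)) (F : Finset α), Closed R F → R.r F < I.card →
    k * (I.card - R.r F) ≤ 8 * (S ∩ (blkU b I \ F)).card) →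
  ∃ (T : Finset α) (y : Fin n → ℕ) (v : α → ℕ), Opt R n b S c T y v ∧
    k * ∑ x ∈ T, c x ≤ 8 * ∑ x ∈ S, (y (b x) - v x)

/-- **MT-U**. PROOF. `T` has `n` elements (one in each block). Let `e : Fin n → α` enumerate `T`
with `v ∘ e` monotone (`Tuple.sort`). Let `g i = n` if `y i ≤ c0`... in detail: if `c0 < y i` let
`g i` be the number of `j` with `v (e j) < y i - c0`, and `g i = 0` otherwise. If `c0 < y (b x)`,
put `m = y (b x) - c0`; then the image of `{j : g ≤ j}` under `e` is `T ∩ lev v m`, of rank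
`|T ∩ lev v m| = r (lev v m)` (subsets of `T` are independent, `indep_sub`), so its closure is
`lev v m` (`cl_eq`), and `x ∉ lev v m` iff `v x + c0 < y (b x)`. If `y (b x) ≤ c0` the image is `T`,
whose closure is everything (`cl_full`), and `v x + c0 < y (b x)` fails. -/
def G_U : Prop := ∀ (α : Type) [Fintype α] [DecidableEq α] (R : RankFn α) (n : ℕ) (b : α → Fin n)
  (S : Finset α) (c : α → ℕ) (T : Finset α) (y : Fin n → ℕ) (v : α → ℕ) (c0 : ℕ),
  R.r univ = n → Opt R n b S c T y v →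
  ∃ (e : Fin n → α) (g : Fin n → Fin (n + 1)),
    univ.filter (fun x => v x + c0 < y (b x)) = Ufam R b e g

/-- **MT-X**. PROOF. Let `X = blkU b I \ F`. `|blkU b I| = k |I|`. For `j : Fin k` let
`e j = |{x ∈ X : t x = j}|`, `z j = |{x ∈ blkU b I ∩ F : t x = j}| ≤ r F` (the set is independent).
So `∑ j, e j = |X|` and `∑ j, z j = k |I| - |X|`. First `|X| ≥ k |I| - |F| ≥ k |I| - k r F`
(`|F| ≤ k r F` likewise). If `k (e j + (r F - z j)) > 2 |X|` for all `j`, summing over `j` gives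
`k (|X| + k r F - (k |I| - |X|)) > 2 k |X|`, i.e. `r F > |I|`, a contradiction. So take `j` with
`k (e j + (r F - z j)) ≤ 2 |X|`, `E = {x ∈ X : t x = j}` and, by `exists_extend`, `Q ⊆ F` with
`r F - z j` elements and `cl ({x ∈ blkU b I ∩ F : t x = j} ∪ Q) = F`. -/
def G_X : Prop := ∀ (α : Type) [Fintype α] [DecidableEq α] (R : RankFn α) (n k : ℕ)
  (b : α → Fin n) (t : α → Fin k), 0 < k →
  (∀ i, (univ.filter (fun x => b x = i)).card = k) →
  (∀ (j : Fin k) (Y : Finset α), (∀ x ∈ Y, t x = j) → Y.card ≤ R.r Y) →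
  ∀ (I : Finset (Fin n)) (F : Finset α), Closed R F → R.r F < I.card →
    k * (I.card - R.r F) ≤ (blkU b I \ F).card ∧
    ∃ (j : Fin k) (E Q : Finset α), blkU b I \ F = Xfam R b t I j E Q ∧
      k * (E.card + Q.card) ≤ 2 * (blkU b I \ F).card

/-- The reservoir of level `l` and index `g`. -/
def res {α : Type} [Fintype α] (s l g : ℕ) (f : α → ℕ) : Finset α :=
  univ.filter (fun x => f x < s * 2 ^ s ∧ f x / 2 ^ s = l ∧ (f x % 2 ^ s) / 2 ^ l = g)

/-- The common reservoir. -/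
def top {α : Type} [Fintype α] (s : ℕ) (f : α → ℕ) : Finset α := univ.filter (fun x => s * 2 ^ s ≤ f x)

/-- **MT-H1** (one set `U`). `D` = a set of `2 ^ l` labels out of `N`. PROOF.
`∑ f, ∏ x ∈ U, w (f x) = N ^ (|α| - |U|) (N - 2^l / 2) ^ |U|` for `w = 1/2` on `D` and `1` elsewhere
(`Finset.prod_univ_sum` or `Fintype.piFinset`), and the left side is at least
`#{bad f} * (1/2)^(k/8)` (the product is `(1/2)^|{x ∈ U : f x ∈ D}|`, and a bad `f` has
`8 |..| ≤ k`). `(1 - 2^l/(2N))^|U| ≤ exp (- |U| 2^l / (2 N)) ≤ exp (- 8 h k) ≤ 2^(-8hk)`. -/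
def G_H1 : Prop := ∀ (α : Type) [Fintype α] [DecidableEq α] (N k h l : ℕ) (D : Finset (Fin N))
  (U : Finset α), 1 ≤ h → D.card = 2 ^ l → 16 * h * k * N ≤ 2 ^ l * U.card →
  (univ.filter (fun f : α → Fin N => 8 * (U.filter (fun x => f x ∈ D)).card ≤ k)).card
    * 2 ^ (7 * h * k) ≤ N ^ Fintype.card α

/-- **MT-R1** (one set `X`). `D` = the labels that are not top, a fraction `2^(-24)`. PROOF.
`∑ f, ∏ x ∈ X, w (f x) = N ^ (|α| - |X|) (N - |D| + 2^24 |D|) ^ |X| ≤ N ^ |α| 2 ^ |X|` for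
`w = 2^24` on `D` and `1` elsewhere; for a bad `f` the product is at least `2 ^ (18 |X|)` as
`24 |{x ∈ X : f x ∈ D}| ≥ 18 |X|`. -/
def G_R1 : Prop := ∀ (α : Type) [Fintype α] [DecidableEq α] (N : ℕ) (D : Finset (Fin N))
  (X : Finset α), 2 ^ 24 * D.card = N →
  (univ.filter (fun f : α → Fin N => 3 * X.card < 4 * (X.filter (fun x => f x ∈ D)).card)).card
    * 2 ^ (17 * X.card) ≤ N ^ Fintype.card α

/-- **MT-LAB** (random labels). PROOF. `N = 2^24 s 2^s` labels, `f : α → Fin N` (then compose with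
`Fin.val`). *(1)* For `l < s`, `g < 2^(s-l)` the labels `lam` with `lam < s 2^s`,
`lam / 2^s = l`, `(lam % 2^s) / 2^l = g` are `2^l` many: `lam = l 2^s + g 2^l + i`, `i < 2^l`. So by
`G_H1` (`16 h k N = 2^l (2^28 h k s 2^(s-l))`) for one `(l, g, e, gg)` at most
`N^|α| / 2^(7hk)` labelings are bad. There are at most `s 2^s · |α|^n (n+1)^n` such
`(l, g, e, gg)`, and `s 2^s ≤ 2^(2h)`.. `|α| = n k ≤ 2^(2h)`, `n + 1 ≤ 2^(h+1)`, so at most
`2^(2h + 2hn + (h+1)n) ≤ 2^(2h + 3hk + k)`: in total at most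
`N^|α| 2^(2h + k + 3hk - 7hk) ≤ N^|α| / 4` labelings violate the first property
(`2h + k + 2 ≤ 4hk` as `h ≥ 1`, `k ≥ 2`; note `s ≤ h` and `2^s ≤ 2^h`, `s ≤ 2^h`).
*(2)* The labels `< s 2^s` are a fraction `2^(-24)`. For one `(I, j, E, Q)` with `X = X I j E Q`,
`k ≤ |X|`, `k(|E| + |Q|) ≤ 2|X|`, by `G_R1` at most
`N^|α| / 2^(17|X|) ≤ N^|α| / 2^(8k + 4k|E| + 4k|Q|)` labelings are bad (`4 |top ∩ X| < |X|` iff
`4 |X \ top| > 3 |X|`). The sum over all `(I, j, E, Q)` is at most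
`N^|α| 2^n k 2^(-8k) ((1 + 2^(-4k))^(nk))^2` (`∑ E, t^|E| = (1+t)^|α|`,
`Finset.sum_pow_mul_eq_add_pow` or `Finset.prod_one_add`), and `(1 + 2^(-4k))^(2nk) ≤ 2` as
`2 n k ≤ 2 k² ≤ 2^(4k) / 2` (e.g. `(1+t)^m ≤ exp (m t) ≤ exp (1/2) ≤ 2`), so it is at most
`N^|α| 2^(k + k - 8k + 1) ≤ N^|α| / 4`. So some labeling has both properties. -/
def G_LAB : Prop := ∀ (α : Type) [Fintype α] [DecidableEq α] (n k h s : ℕ)
  (U : (Fin n → α) → (Fin n → Fin (n + 1)) → Finset α)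
  (X : Finset (Fin n) → Fin k → Finset α → Finset α → Finset α),
  2 ≤ k → n ≤ k → k ≤ 2 ^ h → 1 ≤ s → s ≤ h → Fintype.card α = n * k →
  ∃ f : α → ℕ,
    (∀ l < s, ∀ g < 2 ^ (s - l), ∀ (e : Fin n → α) (gg : Fin n → Fin (n + 1)),
      2 ^ 28 * h * k * s * 2 ^ (s - l) ≤ (U e gg).card →
      k < 8 * (res s l g f ∩ U e gg).card) ∧
    (∀ (I : Finset (Fin n)) (j : Fin k) (E Q : Finset α), k ≤ (X I j E Q).card →
      k * (E.card + Q.card) ≤ 2 * (X I j E Q).card →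
      (X I j E Q).card ≤ 4 * (top s f ∩ X I j E Q).card)

/-- The allowed elements for the colour `j`. -/
def allowed {α : Type} [Fintype α] (s : ℕ) (f : α → ℕ) (j : ℕ) : Finset α :=
  univ.filter (fun x => s * 2 ^ s ≤ f x ∨
    (f x % 2 ^ s) / 2 ^ (f x / 2 ^ s) = j / 2 ^ (f x / 2 ^ s))

/-- The cost of an element: `0` on level `0`, `2^(l-1)` on level `l`, `2^(s-1)` on the top. -/
def cost {α : Type} (s : ℕ) (f : α → ℕ) (x : α) : ℕ :=
  if s * 2 ^ s ≤ f x then 2 ^ (s - 1) else if f x / 2 ^ s = 0 then 0 else 2 ^ (f x / 2 ^ s - 1)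

/-- The two properties of the labeling. -/
def Lab {α : Type} [Fintype α] [DecidableEq α] (R : RankFn α) (n k h s : ℕ) (b : α → Fin n)
    (f : α → ℕ) : Prop :=
  (∀ l < s, ∀ g < 2 ^ (s - l), ∀ (e : Fin n → α) (gg : Fin n → Fin (n + 1)),
      2 ^ 28 * h * k * s * 2 ^ (s - l) ≤ (Ufam R b e gg).card →
      k < 8 * (res s l g f ∩ Ufam R b e gg).card) ∧
  (∀ (I : Finset (Fin n)) (F : Finset α), Closed R F → R.r F < I.card →
      k * (I.card - R.r F) ≤ 4 * (top s f ∩ (blkU b I \ F)).card)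

/-- The selected sets: transversal bases inside the allowed sets, disjoint, of small cost. -/
def Good {α : Type} [Fintype α] [DecidableEq α] (R : RankFn α) (n h s : ℕ) (b : α → Fin n)
    (f : α → ℕ) (T : ℕ → Finset α) (j : ℕ) : Prop :=
  (∀ i < j, T i ⊆ allowed s f i ∧ (∀ a, ((T i).filter (fun x => b x = a)).card = 1) ∧
    R.r (T i) = n ∧ ∑ x ∈ T i, cost s f x ≤ 2 ^ 31 * h * s ^ 2 * 2 ^ s) ∧
  (∀ i < j, ∀ i' < j, i ≠ i' → Disjoint (T i) (T i'))

/-- **MT-LOSS**. What the first `j` sets take from the reservoirs (`W = 2^31 h s² 2^s`,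
`16 W ≤ k`). PROOF. *Top:* `2^(s-1) |T i ∩ top| ≤ cost (T i) ≤ W`, there are at most `2^s` sets, so
at most `2^s W / 2^(s-1) = 2 W ≤ k / 8` elements. *Level `l ≥ 1`:* if `T i` meets `res s l g f`
then `i / 2^l = g` (definition of `allowed`), so at most `2^l` indices `i`, and
`2^(l-1) |T i ∩ res s l g f| ≤ W`. *Level `0`:* `T i ∩ res s 0 j f = ∅` for `i ≠ j`. -/
def G_LOSS : Prop := ∀ (α : Type) [Fintype α] [DecidableEq α] (R : RankFn α) (n k h s : ℕ)
  (b : α → Fin n) (f : α → ℕ) (T : ℕ → Finset α) (j : ℕ), 1 ≤ s → j < 2 ^ s →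
  16 * (2 ^ 31 * h * s ^ 2 * 2 ^ s) ≤ k → Good R n h s b f T j →
  8 * ((range j).biUnion T ∩ top s f).card ≤ k ∧
  (∀ l, 1 ≤ l → l < s → ∀ g, 8 * ((range j).biUnion T ∩ res s l g f).card ≤ k) ∧
  (range j).biUnion T ∩ res s 0 j f = ∅

/-- **MT-STEP**. One more set. PROOF. `S = allowed s f j \ (range j).biUnion T`. By `G_LOSS` and
`Lab`, `8 |S ∩ (blkU b I \ F)| ≥ 8 |top ∩ ..| - k ≥ 2 k a - k ≥ k a` (`a = |I| - r F ≥ 1`), so `G_K`
gives `T_j, y, v` with `c = cost s f`. For `l < s` let `c_l = 0` if `l = 0` and `2^(l-1)` otherwise,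
`U_l = {x : v x + c_l < y (b x)}`, a set `Ufam` by `G_U`. An element of
`res s l (j / 2^l) f` outside the used sets is in `S` and has cost `c_l`, so
`y (b x) ≤ v x + c_l` and it is not in `U_l`: `res s l (j / 2^l) f ∩ U_l` is contained in the used
elements of that reservoir, so by `G_LOSS` `8 |res ∩ U_l| ≤ k`, and by `Lab`
`|U_l| < 2^28 h k s 2^(s-l)`. For `x ∈ S`, `y (b x) - v x ≤ cost ≤ 2^(s-1)`, so
`y (b x) - v x ≤ [x ∈ U_0] + ∑ 1 ≤ l < s, 2^(l-1) [x ∈ U_l]`. Hence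
`k c(T_j) ≤ 8 (|U_0| + ∑ 2^(l-1) |U_l|) ≤ 8 · 2^28 h k s (2^s + (s-1) 2^(s-1)) ≤ k 2^31 h s² 2^s`.
The new family is `Function.update T j T_j`. -/
def G_STEP : Prop := ∀ (α : Type) [Fintype α] [DecidableEq α] (R : RankFn α) (n k h s : ℕ)
  (b : α → Fin n) (f : α → ℕ) (T : ℕ → Finset α) (j : ℕ), 0 < k → 1 ≤ s → j < 2 ^ s →
  16 * (2 ^ 31 * h * s ^ 2 * 2 ^ s) ≤ k → R.r univ = n → (∀ x, 0 < R.r {x}) →
  Lab R n k h s b f → Good R n h s b f T j → ∃ T' : ℕ → Finset α, Good R n h s b f T' (j + 1)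

/-- **MT-SEL**. From `G_STEP`, `G_LAB`, `G_X` (induction on `j ≤ 2^s`; `Lab` from `G_LAB` with
`U = Ufam R b`, `X = Xfam R b t` and `G_X`: `k ≤ k (|I| - r F) ≤ |X|`; no loops: `Y = {x}` in the
last hypothesis; `|α| = n k`). -/
def G_SEL : Prop := ∀ (α : Type) [Fintype α] [DecidableEq α] (R : RankFn α) (n k h s : ℕ)
  (b : α → Fin n) (t : α → Fin k), 2 ≤ k → n ≤ k → k ≤ 2 ^ h → 1 ≤ s → s ≤ h →
  16 * (2 ^ 31 * h * s ^ 2 * 2 ^ s) ≤ k → R.r univ = n →
  (∀ i, (univ.filter (fun x => b x = i)).card = k) →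
  (∀ (j : Fin k) (Y : Finset α), (∀ x ∈ Y, t x = j) → Y.card ≤ R.r Y) →
  ∃ T : ℕ → Finset α, (∀ i < 2 ^ s, (∀ a, ((T i).filter (fun x => b x = a)).card = 1) ∧
    R.r (T i) = n) ∧ ∀ i < 2 ^ s, ∀ i' < 2 ^ s, i ≠ i' → Disjoint (T i) (T i')

/-- **MT-NUM** (numbers). PROOF. Let `h = Nat.clog 2 k`, so `k ≤ 2^h`, `h ≤ log_2 k + 1 ≤ 3 log k`
(`k ≥ 2`). Let `A = 2^35 h^3`. If `k < 2 A` take `s = 0`:
`c k / (log k)^3 ≤ c 2^36 h^3 / (log k)^3 ≤ c 2^36 27 ≤ 1` for `c = 2^(-41)`. Otherwise let `s` be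
maximal with `A 2^s ≤ k`; `1 ≤ s ≤ h` and `2^s > k / (2A) ≥ k / (2^36 27 (log k)^3)`, and
`16 · 2^31 h s² 2^s ≤ A 2^s ≤ k`. -/
def G_NUM : Prop := ∃ c : ℝ, 0 < c ∧ ∀ k : ℕ, 2 ≤ k → ∃ h s : ℕ, k ≤ 2 ^ h ∧
  c * k / (Real.log k) ^ 3 ≤ (2 ^ s : ℕ) ∧
  (s = 0 ∨ (1 ≤ s ∧ s ≤ h ∧ 16 * (2 ^ 31 * h * s ^ 2 * 2 ^ s) ≤ k))

/-- **MT-TOP** (the result). From `G_SEL`, `G_NUM` and Rado's theorem (`s = 0`: one transversal
basis). PROOF. `α` is replaced by the subtype of the ground set (finite: a union of `k` bases of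
size `n`), `R = ` the rank function of `M` (`ofM` of Helper10.SPL.Mat) on images. `b` and `t` are
the labels of the blocks and of the bases. `n = 0`: take empty sets. -/
def G_TOP : Prop := ∃ c : ℝ, 0 < c ∧
  ∀ (α : Type) (M : Matroid α) (n k : ℕ), 2 ≤ k → n ≤ k →
    M.eRank = (n : ℕ∞) →
    (∃ B : Fin k → Set α, (∀ i, M.IsBase (B i)) ∧
        (Pairwise fun i j => Disjoint (B i) (B j)) ∧ (⋃ i, B i) = M.E) →
    ∀ P : Fin n → Set α,
      (∀ i, (P i).encard = (k : ℕ∞)) →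
      (Pairwise fun i j => Disjoint (P i) (P j)) →
      (⋃ i, P i) = M.E →
      ∃ (m : ℕ) (T : Fin m → Set α),
        c * k / (Real.log k) ^ 3 ≤ m ∧
        (∀ j, M.IsBase (T j)) ∧
        (∀ j, ∀ i, (T j ∩ P i).encard = 1) ∧
        (Pairwise fun j j' => Disjoint (T j) (T j'))

end Pool.Agent.Helper28.MT
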