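import Mathlib
import Pool.Agent.Helper28.MT.Goals

/-!
# Project MT, second version (MP_bb782b_co): c k / log k disjoint transversal bases

Same method as `Goals.lean` (first version, `c k / (log k)^3`, landed), with adaptive costs: the
usage of the reservoirs is controlled by an exponential potential. There are reservoirs of the
levels `0, ..., s - 1` as before, one more reservoir of level `s` common to all sets, and the top
(level `s + 1`), common to all sets. The definitions `Ufam`, `Xfam`, `Opt`, `blkU`, `lev`, `cl`,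
`Closed` and the goals `G_K`, `G_U`, `G_X`, `G_R1` (all proved) are those of the first version.
-/

set_option autoImplicit false

namespace Pool.Agent.Helper28.MT2

open Finset
open Pool.Agent.Helper55.Rota
open Pool.Agent.Helper28.MT

/-- The level of a label: `0, ..., s - 1` for the labels `< s 2^s`, `s` for the next `s 2^s` labels,
`s + 1` (top) for the others. -/
def lv (s m : ℕ) : ℕ :=
  if m < s * 2 ^ s then m / 2 ^ s else if m < 2 * (s * 2 ^ s) then s else s + 1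

/-- The group of a label. -/
def grp (s m : ℕ) : ℕ := if m < s * 2 ^ s then (m % 2 ^ s) / 2 ^ (m / 2 ^ s) else 0

/-- The reservoir of level `l` and group `g`. -/
def rsv {α : Type} [Fintype α] (s l g : ℕ) (f : α → ℕ) : Finset α :=
  univ.filter (fun x => lv s (f x) = l ∧ grp s (f x) = g)

/-- The elements allowed for the set with the number `j < 2^s`. -/
def alw {α : Type} [Fintype α] (s : ℕ) (f : α → ℕ) (j : ℕ) : Finset α :=
  univ.filter (fun x => grp s (f x) = j / 2 ^ lv s (f x))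

/-- The threshold of level `l ≤ s`. -/
def Lth (h k s l : ℕ) : ℕ := 2 ^ 29 * h * k * (if l < s then s * 2 ^ (s - l) else 1)

/-- **MT2-H2** (one set `U`). `D` = a set of labels. PROOF. As `mt_h1` (landed:
`Pool/Agent/Helper37/MT/H1.lean`), with general `D` and the larger bound `4 h k`.
`∑ f, ∏ x ∈ U, w (f x) = N ^ (|α| - |U|) (N - |D| / 2) ^ |U|` for `w = 1/2` on `D` and `1` elsewhere,
and the left side is at least `#{bad f} * (1/2)^(4hk)`.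
`(1 - |D|/(2N))^|U| ≤ exp (- |U| |D| / (2 N)) ≤ exp (- 8 h k) ≤ 2^(-11hk)` (`2^11 = 2048 ≤ e^8`). -/
def G_H2 : Prop := ∀ (α : Type) [Fintype α] [DecidableEq α] (N k h : ℕ) (D : Finset (Fin N))
  (U : Finset α), 0 < N → 1 ≤ h → 16 * h * k * N ≤ D.card * U.card →
  (univ.filter (fun f : α → Fin N => (U.filter (fun x => f x ∈ D)).card ≤ 4 * h * k)).card
    * 2 ^ (7 * h * k) ≤ N ^ Fintype.card α

/-- **MT2-LAB2** (random labels), from `G_H2`, `G_R1`. PROOF. As `mt_lab` (landed: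
`Pool/Agent/Helper23/MT/LAB.lean`). `N = 2^25 s 2^s` labels, `f : α → Fin N` (then compose with
`Fin.val`). *(1)* For `l < s`, `g < 2^(s-l)` the labels `m` with `lv s m = l`, `grp s m = g`
are `m = l 2^s + g 2^l + i`, `i < 2^l`: `2^l` many, and
`16 h k N = 2^l (2^29 h k s 2^(s-l)) ≤ 2^l |U|`. For `l = s` (`g = 0`) they are the `s 2^s` labels
`s 2^s ≤ m < 2 s 2^s`, and `16 h k N = s 2^s (2^29 h k) ≤ s 2^s |U|`. By `G_H2` for one
`(l, g, e, gg)` at most `N^|α| / 2^(7hk)` labelings are bad. There are at most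
`(s+1) 2^s · |α|^n (n+1)^n ≤ 2^(2h + 2hn + (h+1)n) ≤ 2^(2h + 3hk + k)` such `(l, g, e, gg)`
(`s + 1 ≤ 2^s ≤ 2^h`), in total at most `N^|α| 2^(2h + k + 3hk - 7hk) ≤ N^|α| / 4`
(`2h + k + 2 ≤ 4hk` as `h ≥ 1`, `k ≥ 2`).
*(2)* The labels `< 2 s 2^s` are a fraction `2^(-24)`: `G_R1` and the same count as in `mt_lab`. -/
def G_LAB2 : Prop := ∀ (α : Type) [Fintype α] [DecidableEq α] (n k h s : ℕ)
  (U : (Fin n → α) → (Fin n → Fin (n + 1)) → Finset α)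
  (X : Finset (Fin n) → Fin k → Finset α → Finset α → Finset α),
  2 ≤ k → n ≤ k → k ≤ 2 ^ h → 1 ≤ s → s ≤ h → Fintype.card α = n * k →
  ∃ f : α → ℕ,
    (∀ l ≤ s, ∀ g < 2 ^ (s - l), ∀ (e : Fin n → α) (gg : Fin n → Fin (n + 1)),
      Lth h k s l ≤ (U e gg).card → 4 * h * k < (rsv s l g f ∩ U e gg).card) ∧
    (∀ (I : Finset (Fin n)) (j : Fin k) (E Q : Finset α), k ≤ (X I j E Q).card →
      k * (E.card + Q.card) ≤ 2 * (X I j E Q).card →
      (X I j E Q).card ≤ 4 * (rsv s (s + 1) 0 f ∩ X I j E Q).card)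

/-- The two properties of the labeling. -/
def Lab2 {α : Type} [Fintype α] [DecidableEq α] (R : RankFn α) (n k h s : ℕ) (b : α → Fin n)
    (f : α → ℕ) : Prop :=
  (∀ l ≤ s, ∀ g < 2 ^ (s - l), ∀ (e : Fin n → α) (gg : Fin n → Fin (n + 1)),
      Lth h k s l ≤ (Ufam R b e gg).card → 4 * h * k < (rsv s l g f ∩ Ufam R b e gg).card) ∧
  (∀ (I : Finset (Fin n)) (F : Finset α), Closed R F → R.r F < I.card →
      k * (I.card - R.r F) ≤ 4 * (rsv s (s + 1) 0 f ∩ (blkU b I \ F)).card)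

/-- **MT2-STEPN** (one more set, costs given by a monotone function `C` of the level), from `G_K`,
`G_U`. `V` = the elements used before. PROOF (compare `mt_step`, landed:
`Pool/Agent/Helper10/MT/STEP.lean`). `S = alw s f j \ V`, `c x = C (lv s (f x))`. The top
`rsv s (s+1) 0 f` is contained in `alw s f j` (`j / 2^(s+1) = 0`), so for `F` closed,
`a = |I| - r F ≥ 1`: `8 |S ∩ (blkU I \ F)| ≥ 8 |top ∩ ..| - 8 |V ∩ top| ≥ 2 k a - k ≥ k a`; `G_K`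
gives `T, y, v`. For `l ≤ s` let `U_l = {x : v x + C l < y (b x)}`, a set `Ufam` by `G_U`. An
element of `rsv s l (j / 2^l) f` outside `V` is in `S` and has cost `C l`, so
`y (b x) ≤ v x + C l` and it is not in `U_l`: so `|rsv s l (j/2^l) f ∩ U_l| ≤ 4 h k` and by `Lab2`
(`j / 2^l < 2^(s-l)`) `|U_l| < Lth h k s l`. For `x ∈ S`, `m = y (b x) - v x ≤ C (lv ..) ≤ C (s+1)`,
so `m ≤ ∑ l ∈ range (s+1), if C l < m then C (l+1) - C l else 0` (if `m > 0`, the sum up to the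
largest `l` with `C l < m` telescopes to `C (l+1) ≥ m`, as `C 0 = 0`). Hence
`k c(T) ≤ 8 ∑ l ∈ range (s+1), (C (l+1) - C l) |U_l|`, and
`c(T) = ∑ l ∈ range (s+1), C (l+1) |T ∩ rsv s (l+1) (j / 2^(l+1)) f|` (as `C 0 = 0`, all levels are
`≤ s + 1` and `T ⊆ alw s f j`). -/
def G_STEPN : Prop := ∀ (α : Type) [Fintype α] [DecidableEq α] (R : RankFn α) (n k h s : ℕ)
  (b : α → Fin n) (f : α → ℕ) (j : ℕ) (V : Finset α) (C : ℕ → ℕ), 0 < k → 1 ≤ s → j < 2 ^ s →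
  R.r univ = n → (∀ x, 0 < R.r {x}) → Lab2 R n k h s b f →
  (∀ l ≤ s, (V ∩ rsv s l (j / 2 ^ l) f).card ≤ 4 * h * k) →
  8 * (V ∩ rsv s (s + 1) 0 f).card ≤ k → C 0 = 0 → Monotone C →
  ∃ T : Finset α, T ⊆ alw s f j \ V ∧ (∀ a, (T.filter (fun x => b x = a)).card = 1) ∧
    R.r T = n ∧
    k * ∑ l ∈ range (s + 1), C (l + 1) * (T ∩ rsv s (l + 1) (j / 2 ^ (l + 1)) f).card ≤
      8 * ∑ l ∈ range (s + 1), (C (l + 1) - C l) * Lth h k s l

/-- **MT2-STEPW** (the same with real weights which need not be monotone), from `G_STEPN`. PROOF.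
`M l = max (w 0, .., w (l-1))` for `l ≥ 1` (positive, monotone), `Q` real with `Q w i ≥ 1` for all
`i ≤ s`, `C l = ⌈Q M l⌉₊` for `l ≥ 1` (for `l > s + 1` take `M (s+1)`), `C 0 = 0`. Then
`Q w l ≤ C (l+1)`, and `C (l+1) - C l ≤ 2 Q w l`: if `M (l+1) = M l` (`l ≥ 1`) the difference is `0`,
otherwise `M (l+1) = w l` and `C (l+1) ≤ Q w l + 1 ≤ 2 Q w l`. So
`k Q ∑ w l u (l+1) ≤ k ∑ C (l+1) u (l+1) ≤ 8 ∑ (C (l+1) - C l) Lth l ≤ 16 Q ∑ w l Lth l`. -/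
def G_STEPW : Prop := ∀ (α : Type) [Fintype α] [DecidableEq α] (R : RankFn α) (n k h s : ℕ)
  (b : α → Fin n) (f : α → ℕ) (j : ℕ) (V : Finset α) (w : ℕ → ℝ), 0 < k → 1 ≤ s → j < 2 ^ s →
  R.r univ = n → (∀ x, 0 < R.r {x}) → Lab2 R n k h s b f →
  (∀ l ≤ s, (V ∩ rsv s l (j / 2 ^ l) f).card ≤ 4 * h * k) →
  8 * (V ∩ rsv s (s + 1) 0 f).card ≤ k → (∀ l, 0 < w l) →
  ∃ T : Finset α, T ⊆ alw s f j \ V ∧ (∀ a, (T.filter (fun x => b x = a)).card = 1) ∧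
    R.r T = n ∧
    (k : ℝ) * ∑ l ∈ range (s + 1),
        w l * ((T ∩ rsv s (l + 1) (j / 2 ^ (l + 1)) f).card : ℝ) ≤
      16 * ∑ l ∈ range (s + 1), w l * (Lth h k s l : ℝ)

/-- What the sets with numbers `i < j` take from the reservoir `(l, g)`; `u i l` is what the `i`-th
set takes from its reservoir of level `l`. -/
def usd (u : ℕ → ℕ → ℕ) (j l g : ℕ) : ℕ :=
  ∑ i ∈ (range j).filter (fun i => i / 2 ^ l = g), u i l

/-- The number of `i < j` which belong to the group `g` of level `l`. -/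
def act (j l g : ℕ) : ℕ := ((range j).filter (fun i => i / 2 ^ l = g)).card

/-- The rate of the level `l + 1`. -/
noncomputable def dl (h k s l : ℕ) : ℝ := 32 * (Lth h k s l : ℝ) / (k : ℝ) ^ 2

/-- The potential after `j` sets. -/
noncomputable def pot (h k s : ℕ) (u : ℕ → ℕ → ℕ) (j : ℕ) : ℝ :=
  ∑ l ∈ range s, ∑ g ∈ range (2 ^ (s - (l + 1))),
      Real.exp ((usd u j (l + 1) g : ℝ) / k - dl h k s l * act j (l + 1) g) +
    32 * 2 ^ s / k * (∑ i ∈ range j, (u i (s + 1) : ℝ) - 16 * Lth h k s s / k * j)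

/-- The weight of the level `l + 1` for the choice of the set with the number `j`. -/
noncomputable def wg (h k s : ℕ) (u : ℕ → ℕ → ℕ) (j l : ℕ) : ℝ :=
  if l < s then Real.exp ((usd u j (l + 1) (j / 2 ^ (l + 1)) : ℝ) / k -
      dl h k s l * (act j (l + 1) (j / 2 ^ (l + 1)) + 1))
    else 16 * 2 ^ s

/-- **MT2-POTS** (the potential does not increase). PROOF. For `l < s` only the term of
`g = j / 2^(l+1)` changes (`g < 2^(s-(l+1))` as `j < 2^s`): `usd` grows by `u j (l+1)` and `act` by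
`1` (`range_succ`, `filter_insert`). With `w = wg .. l` the new term is `w exp (u/k) ≤ w (1 + 2 u/k)`
(`u ≤ k`; `exp t ≤ 1 + 2 t` on `[0, 1]`, e.g. by convexity or `Real.exp_bound`), the old one is
`w exp (dl) ≥ w (1 + dl)`. The last summand grows by
`32 2^s / k (u j (s+1) - 16 Lth s / k) = (2/k) (wg .. s) (u j (s+1)) - (2/k)(16/k) (wg .. s) Lth s`.
Sum: `pot (j+1) - pot j ≤ (2/k) (∑ l ∈ range (s+1), w l u j (l+1) - (16/k) ∑ w l Lth l) ≤ 0`. -/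
def G_POTS : Prop := ∀ (h k s : ℕ) (u : ℕ → ℕ → ℕ) (j : ℕ), 0 < k → 1 ≤ s → j < 2 ^ s →
  (∀ l < s, u j (l + 1) ≤ k) →
  (k : ℝ) * ∑ l ∈ range (s + 1), wg h k s u j l * (u j (l + 1) : ℝ) ≤
    16 * ∑ l ∈ range (s + 1), wg h k s u j l * (Lth h k s l : ℝ) →
  pot h k s u (j + 1) ≤ pot h k s u j

/-- **MT2-POTB** (bounds from the potential). PROOF. `pot 0 = ∑ l < s, 2^(s-(l+1)) = 2^s - 1`.
Let `pot j ≤ 2^s`, `j ≤ 2^s`, `L = Lth s = 2^29 h k`. All summands `exp` are `≥ 0`. *Top:*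
`32 2^s / k (∑ u i (s+1) - 16 L j / k) ≤ 2^s`, so `∑ u i (s+1) ≤ k/32 + 16 L 2^s / k =
k/32 + 2^33 h 2^s ≤ k/32 + k/32`. *Level `l + 1`:* `exp (usd/k - dl act) ≤ 2^s + 32 2^s/k 16 L j/k ≤
2^s + 2^38 h 4^s / k ≤ 2 2^s`, so `usd/k ≤ (s+1) log 2 + dl act`, `act ≤ 2^(l+1)` (the `i` with
`i / 2^(l+1) = g` are in an interval of this length), and
`dl 2^(l+1) = 32 2^29 h k s 2^(s-l) 2^(l+1) / k^2 = 2^35 h s 2^s / k ≤ s / 8`. So
`usd ≤ k (s + 1 + s/8) ≤ 4 h k`. -/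
def G_POTB : Prop := ∀ (h k s : ℕ) (u : ℕ → ℕ → ℕ) (j : ℕ), 1 ≤ s → s ≤ h →
  2 ^ 38 * h * 2 ^ s ≤ k → j ≤ 2 ^ s →
  pot h k s u 0 ≤ 2 ^ s ∧
  (pot h k s u j ≤ 2 ^ s →
    (∀ l < s, ∀ g < 2 ^ (s - (l + 1)), usd u j (l + 1) g ≤ 4 * h * k) ∧
    8 * ∑ i ∈ range j, u i (s + 1) ≤ k)

/-- What the `i`-th set takes from its reservoir of level `l`. -/
def ug {α : Type} [Fintype α] [DecidableEq α] (s : ℕ) (f : α → ℕ) (T : ℕ → Finset α)
    (i l : ℕ) : ℕ := (T i ∩ rsv s l (i / 2 ^ l) f).card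

/-- The selected sets. -/
def Good2 {α : Type} [Fintype α] [DecidableEq α] (R : RankFn α) (n k h s : ℕ) (b : α → Fin n)
    (f : α → ℕ) (T : ℕ → Finset α) (j : ℕ) : Prop :=
  (∀ i < j, T i ⊆ alw s f i ∧ (∀ a, ((T i).filter (fun x => b x = a)).card = 1) ∧
    R.r (T i) = n) ∧
  (∀ i < j, ∀ i' < j, i ≠ i' → Disjoint (T i) (T i')) ∧
  pot h k s (ug s f T) j ≤ 2 ^ s

/-- **MT2-STEP2**, from `G_STEPW`, `G_POTS`, `G_POTB`. PROOF. `V = (range j).biUnion T`. For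
`1 ≤ l ≤ s + 1`: `T i ∩ rsv s l g f = ∅` unless `i / 2^l = g` (definition of `alw`), so
`|V ∩ rsv s l g f| ≤ usd (ug s f T) j l g ≤ 4 h k` for `l ≤ s`, `g = j / 2^l < 2^(s-l)`, and
`|V ∩ rsv s (s+1) 0 f| ≤ ∑ i ∈ range j, ug s f T i (s+1)` (`i / 2^(s+1) = 0`); for `l = 0`:
`V ∩ rsv s 0 j f = ∅`. `G_STEPW` with `w = wg h k s (ug s f T) j` (positive) gives `T_j`; take
`T' = Function.update T j T_j`. `ug s f T' i = ug s f T i` for `i ≠ j`, so `pot`, `wg` at `j` are the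
same for `T` and `T'` (`usd` uses only `i < j`); `ug s f T' j l ≤ |T_j| = n ≤ k`; `G_POTS`. -/
def G_STEP2 : Prop := ∀ (α : Type) [Fintype α] [DecidableEq α] (R : RankFn α) (n k h s : ℕ)
  (b : α → Fin n) (f : α → ℕ) (T : ℕ → Finset α) (j : ℕ), 0 < k → n ≤ k → 1 ≤ s → s ≤ h →
  j < 2 ^ s → 2 ^ 38 * h * 2 ^ s ≤ k → R.r univ = n → (∀ x, 0 < R.r {x}) →
  Lab2 R n k h s b f → Good2 R n k h s b f T j →
  ∃ T' : ℕ → Finset α, Good2 R n k h s b f T' (j + 1)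

/-- **MT2-SEL2**, from `G_LAB2`, `G_X`, `G_STEP2`, `G_POTB`. PROOF. As `mt_sel` (landed:
`Pool/Agent/Helper14/MT/SEL.lean`): `Lab2` from `G_LAB2` with `U = Ufam R b`, `X = Xfam R b t` and
`G_X`; induction on `j ≤ 2^s`; `j = 0`: `G_POTB` (first part). -/
def G_SEL2 : Prop := ∀ (α : Type) [Fintype α] [DecidableEq α] (R : RankFn α) (n k h s : ℕ)
  (b : α → Fin n) (t : α → Fin k), 2 ≤ k → n ≤ k → k ≤ 2 ^ h → 1 ≤ s → s ≤ h →
  2 ^ 38 * h * 2 ^ s ≤ k → R.r univ = n →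
  (∀ i, (univ.filter (fun x => b x = i)).card = k) →
  (∀ (j : Fin k) (Y : Finset α), (∀ x ∈ Y, t x = j) → Y.card ≤ R.r Y) →
  ∃ T : ℕ → Finset α, (∀ i < 2 ^ s, (∀ a, ((T i).filter (fun x => b x = a)).card = 1) ∧
    R.r (T i) = n) ∧ ∀ i < 2 ^ s, ∀ i' < 2 ^ s, i ≠ i' → Disjoint (T i) (T i')

/-- **MT2-NUM2** (numbers). PROOF. As `mt_num` (landed: `Pool/Agent/Helper25/MT/NUM.lean`).
`h = Nat.clog 2 k`, `h ≤ 3 log k`, `A = 2^38 h`. If `k < 2 A` take `s = 0`: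
`c k / log k ≤ c 2^39 h / log k ≤ c 2^39 3 ≤ 1` for `c = 2^(-41)`. Otherwise `s` maximal with
`A 2^s ≤ k`; `1 ≤ s ≤ h` and `2^s > k / (2A) ≥ k / (2^39 3 log k)`. -/
def G_NUM2 : Prop := ∃ c : ℝ, 0 < c ∧ ∀ k : ℕ, 2 ≤ k → ∃ h s : ℕ, k ≤ 2 ^ h ∧
  c * k / Real.log k ≤ (2 ^ s : ℕ) ∧
  (s = 0 ∨ (1 ≤ s ∧ s ≤ h ∧ 2 ^ 38 * h * 2 ^ s ≤ k))

/-- **MT2-TOP2** (the result), from `G_SEL2`, `G_NUM2`. PROOF. As `mt_top` (landed:
`Pool/Agent/Helper7/MT/TOP.lean`), only the numbers differ. -/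
def G_TOP2 : Prop := ∃ c : ℝ, 0 < c ∧
  ∀ (α : Type) (M : Matroid α) (n k : ℕ), 2 ≤ k → n ≤ k →
    M.eRank = (n : ℕ∞) →
    (∃ B : Fin k → Set α, (∀ i, M.IsBase (B i)) ∧
        (Pairwise fun i j => Disjoint (B i) (B j)) ∧ (⋃ i, B i) = M.E) →
    ∀ P : Fin n → Set α,
      (∀ i, (P i).encard = (k : ℕ∞)) →
      (Pairwise fun i j => Disjoint (P i) (P j)) →
      (⋃ i, P i) = M.E →
      ∃ (m : ℕ) (T : Fin m → Set α),
        c * k / Real.log k ≤ m ∧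
        (∀ j, M.IsBase (T j)) ∧
        (∀ j, ∀ i, (T j ∩ P i).encard = 1) ∧
        (Pairwise fun j j' => Disjoint (T j) (T j'))

end Pool.Agent.Helper28.MT2
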