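import Mathlib
import Pool.Agent.Helper28.MT.Goals2

/-!
# Project MT3 (MP_bb782b_co): `c k` disjoint transversal bases (linear)

Paper: /team-store/MP_bb782b_co_helper28_v3.md. New compared with MT2: sliding pools (the set with
the number `j` uses on level `l` the labels `t` with `t / 2^l = j / 2^l + 2`), and short
descriptions of the blurred dual sets (thresholds of the dual solution which are not active are
deleted). `Opt`, `Ufam`, `Xfam`, `lev`, `cl`, `blkU`, `Closed` and the goals `G_W`, `G_U`, `G_X`,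
`G_R1`, `G_H2` (all proved) are those of MT and MT2.
-/

set_option autoImplicit false

namespace Pool.Agent.Helper28.MT3

open Finset
open Pool.Agent.Helper55.Rota
open Pool.Agent.Helper28.MT
open Pool.Agent.Helper28.MT2 (G_H2)

/-! ## Dual solutions -/

/-- `T`, `y`, `v` as in the weighted theorem of Rado, and all thresholds are active. -/
def OptA {α : Type} [Fintype α] [DecidableEq α] (R : RankFn α) (n : ℕ) (b : α → Fin n)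
    (S : Finset α) (c : α → ℕ) (T : Finset α) (y : Fin n → ℕ) (v : α → ℕ) : Prop :=
  Opt R n b S c T y v ∧
  ∀ m, 1 ≤ m → ∀ i, m ≤ y i → R.r (lev v m) < (univ.filter (fun i' => m ≤ y i')).card

/-- **MT3-ACT** (inactive thresholds can be deleted). PROOF. Call `m ≥ 1` active if
`r (lev v m) < |I_m|`, `I_m = {i : m ≤ y i}`. Let `y' i` = the number of active `m ≤ y i`, `v' x` =
the number of active `m ≤ v x` (`m ≥ 1`). `lev v' 0 = univ`; for `m' ≥ 1`, `lev v' m' = lev v μ` and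
`{m' ≤ y'} = I_μ` if `μ` is the `m'`-th active threshold, and both are empty if there are fewer
than `m'` active thresholds below `sup v`, `sup y` (`∅` is closed: no loops). So the closedness and
`|T ∩ lev v' m'| = r (lev v' m')` carry over, and all thresholds `≤ y' i` are active. For `x ∈ S`:
if `y (b x) ≤ v x` then `y' (b x) ≤ v' x`, otherwise `y' (b x) - v' x` = the number of active
`m ∈ (v x, y (b x)]`, `≤ y (b x) - v x ≤ c x`. For `x ∈ T` all `m ∈ (v x, v x + c x]` are active: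
every element of `T ∩ lev v m` has its block in `I_m` (`y (b z) = v z + c z ≥ m`), also `b x ∈ I_m`
and `x ∉ lev v m`; `T` has one element in each block, so
`r (lev v m) = |T ∩ lev v m| ≤ |I_m| - 1`. So `y' (b x) = v' x + c x`. -/
def G_ACT : Prop := ∀ (α : Type) [Fintype α] [DecidableEq α] (R : RankFn α) (n : ℕ)
  (b : α → Fin n) (S : Finset α) (c : α → ℕ) (T : Finset α) (y : Fin n → ℕ) (v : α → ℕ),
  R.r univ = n → (∀ x, 0 < R.r {x}) → Opt R n b S c T y v →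
  ∃ (y' : Fin n → ℕ) (v' : α → ℕ), OptA R n b S c T y' v'

/-- **MT3-K3**, from `G_W`, `G_ACT`. PROOF. *Rado's condition* for `G_W`: for `I` let
`F = cl (S ∩ blkU b I)`. If `r F < |I|` then `0 < k ≤ |blkU b I \ F| ≤ 8 |S0 ∩ (blkU b I \ F)| = 0`
(`S0 ⊆ S`), a contradiction. `G_W`, `G_ACT` give `T, y, v`. For `m ≥ 1` let
`X_m = blkU b I_m \ lev v m = {x : v x < m ≤ y (b x)}`; `∑ x, (y (b x) - v x) = ∑ m ≥ 1, |X_m|`
(truncated subtraction) and the same for the sums over `S0`. `X_m` is empty unless `m ≤ y i` for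
some `i`; then `r (lev v m) < |I_m|`, so `k ≤ k (|I_m| - r (lev v m)) ≤ |X_m| ≤ 8 |S0 ∩ X_m|`.
Summing over `m`: the last claim; summing over `1 ≤ m ≤ y i`: `k y i ≤ ∑ ..`. For `x ∈ T`
`c x = y (b x) - v x`, so `∑ x ∈ T, c x = ∑ m, |T ∩ X_m|` and `|T ∩ X_m| = |I_m| - r (lev v m)` (the
elements of `T ∩ lev v m` have their blocks in `I_m`). (`∑ x ∈ T, c x` is also
`∑ i, y i - ∑ m ≥ 1, r (lev v m)`, see `Pool/Agent/Helper67/MT/K.lean`.) -/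
def G_K3 : Prop := ∀ (α : Type) [Fintype α] [DecidableEq α] (R : RankFn α) (n k : ℕ)
  (b : α → Fin n) (S S0 : Finset α) (c : α → ℕ), R.r univ = n → (∀ x, 0 < R.r {x}) → 0 < k →
  S0 ⊆ S →
  (∀ (I : Finset (Fin n)) (F : Finset α), Closed R F → R.r F < I.card →
    k * (I.card - R.r F) ≤ (blkU b I \ F).card ∧
    (blkU b I \ F).card ≤ 8 * (S0 ∩ (blkU b I \ F)).card) →
  ∃ (T : Finset α) (y : Fin n → ℕ) (v : α → ℕ), OptA R n b S c T y v ∧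
    k * ∑ x ∈ T, c x ≤ ∑ x, (y (b x) - v x) ∧
    (∀ i, k * y i ≤ ∑ x, (y (b x) - v x)) ∧
    ∑ x, (y (b x) - v x) ≤ 8 * ∑ x ∈ S0, (y (b x) - v x)

/-! ## Short descriptions -/

/-- The set of a pattern `(j, g, u, Q)`; `t` = colour, `a` = index inside the colour. -/
def Vfam {α : Type} [Fintype α] [DecidableEq α] (R : RankFn α) {n k m q : ℕ} (b : α → Fin n)
    (t : α → Fin k) (a : α → Fin n) (j : Fin k) (g u : Fin n → Fin m) (Q : Fin q → Fin m × α) :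
    Finset α :=
  univ.filter (fun x => 2 ≤ (g (b x)).val ∧
    x ∉ cl R (univ.filter (fun z => t z = j ∧ (g (b x)).val ≤ (u (a z)).val + 1) ∪
      (univ.filter (fun i : Fin q => (Q i).1.val + 1 = (g (b x)).val)).image (fun i => (Q i).2)))

/-- The family number `e`. -/
def Vf {α : Type} [Fintype α] [DecidableEq α] (R : RankFn α) (n k h : ℕ) (b : α → Fin n)
    (t : α → Fin k) (a : α → Fin n) (e : ℕ) : Finset (Finset α) :=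
  (if 2 ^ e * (e + 2 * h) ≤ 4 * k * e then
    (univ : Finset (Fin k × (Fin n → Fin (2 ^ e)) × (Fin n → Fin (2 ^ e)) ×
      (Fin (2 ^ e) → Fin (2 ^ e) × α))).image
      (fun p => Vfam R b t a p.1 p.2.1 p.2.2.1 p.2.2.2) else ∅) ∪
  (if h ≤ 2 * e then
    (univ : Finset ((Fin n → α) × (Fin n → Fin (n + 1)))).image (fun p => Ufam R b p.1 p.2)
    else ∅)

/-- **MT3-CARD**. PROOF. First part: at most
`k (2^e)^n (2^e)^n (2^e n k)^(2^e) ≤ 2^(h + 2 e n + (e + 2h) 2^e) ≤ 2^(ke + 2ke + 4ke)`; `h ≤ k` as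
`2^h ≤ 2k ≤ 2^k`. Second part: at most `(nk)^n (n+1)^n ≤ 2^(2hn + (h+1)n) ≤ 2^(3hk + k) ≤ 2^(7ke)`
as `h ≤ 2e`. Sum: `≤ 2^(7ke + 1) ≤ 2^(8ke)`. -/
def G_CARD : Prop := ∀ (α : Type) [Fintype α] [DecidableEq α] (R : RankFn α) (n k h : ℕ)
  (b : α → Fin n) (t : α → Fin k) (a : α → Fin n) (e : ℕ), 2 ≤ k → n ≤ k → k ≤ 2 ^ h →
  2 ^ h ≤ 2 * k → Fintype.card α = n * k → 1 ≤ e →
  (Vf R n k h b t a e).card ≤ 2 ^ (8 * k * e)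

/-- **MT3-ENCA** (short description of the blurred dual set), from `G_X`. PROOF. `I_m`, `X_m` as in
`G_K3`, `G = ∑ x, (y (b x) - v x) = ∑ m ≥ 1, |X_m|`. For `1 ≤ m ≤ y i` (some `i`) by `G_X`
`k ≤ k (|I_m| - r (lev v m)) ≤ |X_m|`; so `k y i ≤ G` for all `i`. Also `v x ≤ sup y` (if
`m > sup y`, `T ∩ lev v m = ∅` because `y (b x) = v x + c x` on `T`, so `r (lev v m) = 0` and
`lev v m = ∅`). *Offset:* for `o < c0` the thresholds `i c0 - o` (`i ≥ 1`) partition the positive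
integers, so some `o < c0` has `c0 ∑ i ≥ 1, |X_(i c0 - o)| ≤ G`. Let `F_i = lev v (i c0 - o)`,
`g β = (y β + o) / c0`, and `V x = (v x + o) / c0`; `i ≤ V x ↔ i c0 - o ≤ v x ↔ x ∈ F_i` for
`i ≥ 1`. They are `< m`: `k c0 g ≤ k (y + c0 - 1) ≤ G + k c0 ≤ (m - 1) k c0`. *Colour:* for
`1 ≤ i ≤ sup g`, `∑ j, (r F_i - |{z ∈ F_i : t z = j}|) = k r F_i - |F_i| ≤ |X_(i c0 - o)|`
(`|X_m| ≥ k |I_m| - |F|`, `|I_m| ≥ r F`; the classes of `t` are independent, so the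
terms are `≥ 0`). So some `j` has `∑ i, (r F_i - |{z ∈ F_i : t z = j}|) ≤ ∑ i, |X_(i c0-o)| / k ≤
G / (k c0) ≤ m - 2`. By `exists_extend` there are `Q_i ⊆ F_i` with `r F_i - |{z ∈ F_i : t z = j}|`
elements and `cl ({z ∈ F_i : t z = j} ∪ Q_i) = F_i`. `Q` lists all pairs `(i, q)`, `q ∈ Q_i`,
(filled up with `(0, x0)`), `u (a z) = V z` for `t z = j`. *Check:* `x ∈ Vfam` iff
`2 ≤ g (b x)` and `x ∉ F_(g (b x) - 1)`, i.e. iff `V x + 2 ≤ g (b x)` (a pair `(0, x0)` does no harm: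
`0 + 1 ≠ g`). If `v x + 2 c0 ≤ y (b x)` then `V x + 2 ≤ g (b x)`; if `V x + 2 ≤ g (b x)` then
`y (b x) + o ≥ c0 (V x + 1) + c0 > v x + o + c0`. -/
def G_ENCA : Prop := ∀ (α : Type) [Fintype α] [DecidableEq α] (R : RankFn α) (n k : ℕ)
  (b : α → Fin n) (t : α → Fin k) (a : α → Fin n) (S : Finset α) (c : α → ℕ) (T : Finset α)
  (y : Fin n → ℕ) (v : α → ℕ) (c0 m : ℕ), 0 < k → 0 < n →
  R.r univ = n → (∀ x, 0 < R.r {x}) → (∀ i, (univ.filter (fun x => b x = i)).card = k) →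
  (∀ (j : Fin k) (Y : Finset α), (∀ x ∈ Y, t x = j) → Y.card ≤ R.r Y) →
  (∀ x x', t x = t x' → a x = a x' → x = x') →
  OptA R n b S c T y v → 1 ≤ c0 →
  (∑ x, (y (b x) - v x)) + 2 * k * c0 ≤ m * (k * c0) →
  ∃ (j : Fin k) (g u : Fin n → Fin m) (Q : Fin m → Fin m × α),
    (∀ x, v x + 2 * c0 ≤ y (b x) → x ∈ Vfam R b t a j g u Q) ∧
    (∀ x ∈ Vfam R b t a j g u Q, v x + c0 < y (b x))

/-- **MT3-ENC**, from `G_ENCA`, `G_U`. PROOF. If `2^e (e + 2h) ≤ 4ke` use `G_ENCA` with `m = 2^e`.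
Otherwise `h ≤ 2e`: if `2e + 1 ≤ h`, then `2^e (e + 2h) ≤ 2^e · 3h` and
`4ke ≥ 2 · 2^h ≥ 2 · 2^(h/2) 2^e ≥ 2^e · 3h` for `h ≥ 12` (`2^(h/2) ≥ 3h/2`, `2^e ≤ 2^(h - h/2)`..).
Then use `G_U` with `c0`: the set `{v x + c0 < y (b x)}` is a `Ufam`. -/
def G_ENC : Prop := ∀ (α : Type) [Fintype α] [DecidableEq α] (R : RankFn α) (n k h : ℕ)
  (b : α → Fin n) (t : α → Fin k) (a : α → Fin n) (S : Finset α) (c : α → ℕ) (T : Finset α)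
  (y : Fin n → ℕ) (v : α → ℕ) (c0 e : ℕ), 0 < k → 0 < n → k ≤ 2 ^ h → 2 ^ h ≤ 2 * k → 12 ≤ h →
  R.r univ = n → (∀ x, 0 < R.r {x}) → (∀ i, (univ.filter (fun x => b x = i)).card = k) →
  (∀ (j : Fin k) (Y : Finset α), (∀ x ∈ Y, t x = j) → Y.card ≤ R.r Y) →
  (∀ x x', t x = t x' → a x = a x' → x = x') →
  OptA R n b S c T y v → 1 ≤ c0 → 1 ≤ e →
  (∑ x, (y (b x) - v x)) + 2 * k * c0 ≤ 2 ^ e * (k * c0) →
  ∃ U ∈ Vf R n k h b t a e, (∀ x, v x + 2 * c0 ≤ y (b x) → x ∈ U) ∧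
    (∀ x ∈ U, v x + c0 < y (b x))

/-! ## Labels -/

/-- The pool of level `l` and index `p`. -/
def pool {α : Type} [Fintype α] (l p : ℕ) (f : α → ℕ) : Finset α :=
  univ.filter (fun x => f x / 2 ^ l = p)

/-- The top. -/
def tp {α : Type} [Fintype α] (s : ℕ) (f : α → ℕ) : Finset α :=
  univ.filter (fun x => 2 ^ (s + 2) ≤ f x)

/-- The elements with a label in `L`. -/
def lab {α : Type} [Fintype α] (L : Finset ℕ) (f : α → ℕ) : Finset α :=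
  univ.filter (fun x => f x ∈ L)

/-- The elements allowed for the set with the number `j < 2^s`. -/
def alw3 {α : Type} [Fintype α] (s : ℕ) (f : α → ℕ) (j : ℕ) : Finset α :=
  univ.filter (fun x => 2 ^ (s + 2) ≤ f x ∨ ∃ l < s + 1, f x / 2 ^ l = j / 2 ^ l + 2)

/-- **MT3-LAB3** (random labels), from `G_H2`, `G_R1`. PROOF. As `mt2_lab2` (landed:
`Pool/Agent/Helper72/MT2/LAB2.lean`). `N = 2^(s+26)` labels. *(1)* A set `L` of labels as in the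
first property consists of labels `< 2^(s+2) ≤ N`; apply `G_H2` with `4 e` in place of `h`:
`16 (4e) k N = 2^(s+32) e k ≤ |L| |U|` as `2 |L| ≥ 2^l`. So one `(L, U)` is violated by at most
`N^|α| / 2^(28 k e)` labelings. For `l ≤ s`, `p < 2^(s+2)` there are at most `2^(2^l) ≤ 2^k`
sets `L` (subsets of `[p 2^l, (p+1) 2^l)`), and `|𝓤 e| ≤ 2^(8ke)`, `e ≤ 5h`: in total at most
`(s+1) 2^(s+2) 2^k · 5h · N^|α| 2^(-20k) ≤ N^|α| / 4`; (`s + 1 ≤ 2^s ≤ k`, `h ≤ k`).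
*(2)* The labels `< 2^(s+2)` are a fraction `2^(-24)`: as in `mt2_lab2`. -/
def G_LAB3 : Prop := ∀ (α : Type) [Fintype α] [DecidableEq α] (n k h s : ℕ)
  (𝓤 : ℕ → Finset (Finset α))
  (X : Finset (Fin n) → Fin k → Finset α → Finset α → Finset α),
  2 ≤ k → n ≤ k → k ≤ 2 ^ h → 2 ^ h ≤ 2 * k → 1 ≤ s → 2 ^ s ≤ k → Fintype.card α = n * k →
  (∀ e, 1 ≤ e → (𝓤 e).card ≤ 2 ^ (8 * k * e)) →
  ∃ f : α → ℕ,
    (∀ l ≤ s, ∀ p < 2 ^ (s + 2 - l), ∀ L : Finset ℕ, (∀ r ∈ L, r / 2 ^ l = p) →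
      2 ^ l ≤ 2 * L.card → ∀ e, s - l + 1 ≤ e → e ≤ 5 * h → ∀ U ∈ 𝓤 e,
      2 ^ 33 * e * k * 2 ^ (s - l) ≤ U.card → 16 * e * k < (lab L f ∩ U).card) ∧
    (∀ (I : Finset (Fin n)) (j : Fin k) (E Q : Finset α), k ≤ (X I j E Q).card →
      k * (E.card + Q.card) ≤ 2 * (X I j E Q).card →
      (X I j E Q).card ≤ 4 * (tp s f ∩ X I j E Q).card)

/-- The two properties of the labeling. -/
def Lab3 {α : Type} [Fintype α] [DecidableEq α] (R : RankFn α) (n k h s : ℕ) (b : α → Fin n)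
    (t : α → Fin k) (a : α → Fin n) (f : α → ℕ) : Prop :=
  (∀ l ≤ s, ∀ p < 2 ^ (s + 2 - l), ∀ L : Finset ℕ, (∀ r ∈ L, r / 2 ^ l = p) →
      2 ^ l ≤ 2 * L.card → ∀ e, s - l + 1 ≤ e → e ≤ 5 * h → ∀ U ∈ Vf R n k h b t a e,
      2 ^ 33 * e * k * 2 ^ (s - l) ≤ U.card → 16 * e * k < (lab L f ∩ U).card) ∧
  (∀ (I : Finset (Fin n)) (F : Finset α), Closed R F → R.r F < I.card →
      k * (I.card - R.r F) ≤ (blkU b I \ F).card ∧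
      (blkU b I \ F).card ≤ 4 * (tp s f ∩ (blkU b I \ F)).card)

/-- Blocks, colours and indices, as in the whole project. -/
def Setup {α : Type} [Fintype α] [DecidableEq α] (R : RankFn α) (n k : ℕ) (b : α → Fin n)
    (t : α → Fin k) (a : α → Fin n) : Prop :=
  R.r univ = n ∧ (∀ x, 0 < R.r {x}) ∧ (∀ i, (univ.filter (fun x => b x = i)).card = k) ∧
  (∀ (j : Fin k) (Y : Finset α), (∀ x ∈ Y, t x = j) → Y.card ≤ R.r Y) ∧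
  (∀ x x', t x = t x' → a x = a x' → x = x')

/-! ## One more set -/

/-- **MT3-STEPN3** (natural costs), from `G_K3`, `G_ENC`, `G_U`. `V` = the elements used before.
PROOF. `S = alw3 s f j \ V`, `S0 = tp s f \ V` (`⊆ S`). For `F` closed, `r F < |I|`,
`X = blkU b I \ F`: `|X| ≥ k` and `|X| ≤ 4 |tp ∩ X| ≤ 4 |S0 ∩ X| + 4 |V ∩ tp| ≤ 4 |S0 ∩ X| + |X| / 2`,
so `|X| ≤ 8 |S0 ∩ X|`. `G_K3` gives `T, y, v`; `G = ∑ x, (y (b x) - v x)`. Put `H x = y (b x) - v x`,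
`p_l = j / 2^l + 2 < 2^(s+2-l)`, `e 0 = h`. *Level `0`:* `U_0 = {x : v x < y (b x)}` is a `Ufam`
(`G_U` with `c0 = 0`), so in `Vf .. h`. The elements of `lab (L 0) f` outside `V` are in `S` and have
cost `0`, so they are not in `U_0`: `|lab (L 0) f ∩ U_0| ≤ |V ∩ pool 0 p_0 f| ≤ 16 (s+1) k ≤ 16 h k`,
so by `Lab3` `|U_0| < 2^33 h k 2^s`. *Level `1 ≤ l ≤ s`:* `G_ENC` with `c0 l`, `e l` gives `U`; the
elements of `lab (L l) f` outside `V` are in `S` with cost `≤ c0 l`, so `y (b x) ≤ v x + c0 l`, not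
in `U`; `|lab (L l) f ∩ U| ≤ |V ∩ pool l p_l f| ≤ 16 (s-l+1) k ≤ 16 (e l) k`, so
`|{x : v x + 2 c0 l ≤ y (b x)}| ≤ |U| < 2^33 (e l) k 2^(s-l)`. *Sum:* on `S0` `H ≤ C x ≤ Ct`, so
`∑ x ∈ S0, H x = ∑ m ∈ Icc 1 Ct, |{x ∈ S0 : m ≤ H x}|`. For `m ≥ 1` let `l ≤ s` be maximal with
`l = 0` or `2 c0 l ≤ m`: the set has fewer than `2^33 (e l) k 2^(s-l)` elements, and `l = s` or
`m < 2 c0 (l+1)`. So the set has at most
`∑ l ∈ range s, (if m ≤ 2 c0 (l+1) then 2^33 (e l) k 2^(s-l) else 0) + 2^33 (e s) k` elements; sum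
over `m`. Last claim: `G ≤ 8 ∑ x ∈ S0, H x ≤ 8 Ct |α|`, `|α| = n k` (blocks). -/
def G_STEPN3 : Prop := ∀ (α : Type) [Fintype α] [DecidableEq α] (R : RankFn α) (n k h s : ℕ)
  (b : α → Fin n) (t : α → Fin k) (a : α → Fin n) (f : α → ℕ) (j : ℕ) (V : Finset α)
  (C : α → ℕ) (L : ℕ → Finset ℕ) (c0 : ℕ → ℕ) (Ct : ℕ), 2 ≤ k → 0 < n → n ≤ k → k ≤ 2 ^ h →
  2 ^ h ≤ 2 * k → 1 ≤ s → s + 70 ≤ h → j < 2 ^ s → Setup R n k b t a → Lab3 R n k h s b t a f →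
  (∀ l ≤ s, (V ∩ pool l (j / 2 ^ l + 2) f).card ≤ 16 * (s - l + 1) * k) →
  8 * (V ∩ tp s f).card ≤ k →
  (∀ l ≤ s, (∀ r ∈ L l, r / 2 ^ l = j / 2 ^ l + 2) ∧ 2 ^ l ≤ 2 * (L l).card ∧
    ∀ x, f x ∈ L l → C x ≤ c0 l) →
  c0 0 = 0 → (∀ l, 1 ≤ l → l ≤ s → 1 ≤ c0 l) → (∀ x ∈ tp s f, C x ≤ Ct) →
  ∃ (T : Finset α) (G : ℕ), T ⊆ alw3 s f j \ V ∧
    (∀ i, (T.filter (fun x => b x = i)).card = 1) ∧ R.r T = n ∧
    k * ∑ x ∈ T, C x ≤ G ∧ G ≤ 8 * Ct * (n * k) ∧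
    ∀ e : ℕ → ℕ, e 0 = h →
      (∀ l, 1 ≤ l → l ≤ s → s - l + 1 ≤ e l ∧ e l ≤ 5 * h ∧
        G + 2 * k * c0 l ≤ 2 ^ (e l) * (k * c0 l)) →
      G ≤ 8 * (∑ l ∈ range s, 2 * c0 (l + 1) * (2 ^ 33 * e l * k * 2 ^ (s - l)) +
        Ct * (2 ^ 33 * e s * k))

/-- **MT3-ABS** (numbers). PROOF. Termwise: if `E ≤ 4 (s - l)` fine. The other `l` have
`i = s - l ≥ 1`, `4 i < E`, and contribute at most `32 E 2^i`; with `i ≤ J := (E-1)/4` the sum is at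
most `64 E 2^J`. So the left side is at most the first sum plus `2^38 (64 E 2^J + 32 E) ≤
2^45 E 2^J`, and this is `≤ 2^E / 4 - 1 ≤ g / 2` for `E ≥ 73` (`2^J ≤ 2^(E/4)`, `E ≤ 2^(E/4 ..)`;
at `E = 73`: `J = 18`, `2^63 · 73 ≤ 2^70 ≤ 2^71 - 1`; induction with steps of `4`: the left side
grows by a factor `≤ 2 (E+4)/E ≤ 4`, the right side by `16`), and `≤ 2^45 · 72 · 2^17 ≤ 2^71` for
`E ≤ 72`. -/
def G_ABS : Prop := ∀ (s E : ℕ) (w : ℕ → ℝ) (g : ℝ), 0 ≤ g →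
  (∀ l, 1 ≤ l → l ≤ s → 0 ≤ w l ∧ w l ≤ 32) → (2 : ℝ) ^ E ≤ 2 * (g + 2) →
  2 ^ 38 * (∑ l ∈ Ico 1 s, w (l + 1) * E * 2 ^ (s - l) + 32 * E) ≤
    2 ^ 38 * ∑ l ∈ Ico 1 s, 4 * ((s - l : ℕ) : ℝ) * w (l + 1) * 2 ^ (s - l) + g / 2 + 2 ^ 71

/-- Twice the mean of `w` over the labels of the pool of level `l` of the set `j`. -/
noncomputable def cm (w : ℕ → ℝ) (j l : ℕ) : ℝ :=
  2 / 2 ^ l * ∑ r ∈ Ico ((j / 2 ^ l + 2) * 2 ^ l) ((j / 2 ^ l + 3) * 2 ^ l), w r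

/-- **MT3-STEPW3** (real costs), from `G_STEPN3`, `G_ABS`. PROOF. `L l` = the `r` of the `Ico` with
`w r ≤ cm w j l` for `l ≥ 1` (at least half of them, as `∑ w r = 2^(l-1) cm`), `L 0 = {j + 2}`.
Let `Q ≥ 1` be real with `Q w r ≥ 1` for all `r` with `r / 2^l = j / 2^l + 2`, `1 ≤ l ≤ s`, and
`Q cm w j l ≥ 1`. `C x = ⌈64 Q⌉₊` on the top, `⌈Q w (f x)⌉₊` otherwise; `c0 0 = 0`,
`c0 l = ⌈Q cm w j l⌉₊ ≤ 2 Q cm w j l`, `Ct = ⌈64 Q⌉₊ ≤ 128 Q`. `G_STEPN3` gives `T, G`; let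
`g = G / (k Q)`; the real cost of `T` is `≤ g` (`C x ≥ Q · cost`). `g ≤ 2^10 n ≤ 2^10 k`. Let `E ≥ 1`
with `g + 2 ≤ 2^E ≤ 2 (g + 2)`; `2^E ≤ 2^12 k` so `E ≤ h + 12`. `e 0 = h`,
`e l = 3 (s - l) + E ≤ 5 h`. `G / (k c0 l) + 2 ≤ g / cm + 2 ≤ 8^(s-l) (g + 2) ≤ 2^(e l)`. So
`g ≤ 2^38 (∑ l ∈ range s, cm (l+1) e l 2^(s-l) + 32 E)`
`= 2^38 (cm 1 h 2^s + ∑ l ∈ Ico 1 s, cm (l+1) (3 (s-l) + E) 2^(s-l) + 32 E)`, and by `G_ABS`
`g ≤ 2^38 (cm 1 h 2^s + ∑ l ∈ Ico 1 s, 7 (s-l) cm (l+1) 2^(s-l)) + g/2 + 2^71`, so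
`g ≤ 2^39 (..) + 2^72`; `h 2^s ≤ 2^8 s 2^(s-1)` and `7 (s-l) 2^(s-l) ≤ 2^4 (s-(l+1)+1) 2^(s-(l+1))`. -/
def G_STEPW3 : Prop := ∀ (α : Type) [Fintype α] [DecidableEq α] (R : RankFn α) (n k h s : ℕ)
  (b : α → Fin n) (t : α → Fin k) (a : α → Fin n) (f : α → ℕ) (j : ℕ) (V : Finset α)
  (w : ℕ → ℝ), 2 ≤ k → 0 < n → n ≤ k → k ≤ 2 ^ h →
  2 ^ h ≤ 2 * k → 1 ≤ s → s + 70 ≤ h → h ≤ 128 * s → j < 2 ^ s → Setup R n k b t a →
  Lab3 R n k h s b t a f →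
  (∀ l ≤ s, (V ∩ pool l (j / 2 ^ l + 2) f).card ≤ 16 * (s - l + 1) * k) →
  8 * (V ∩ tp s f).card ≤ k →
  (∀ r, 0 ≤ w r) → w (j + 2) = 0 →
  (∀ l, 1 ≤ l → l ≤ s → ∀ r, r / 2 ^ l = j / 2 ^ l + 2 → 0 < w r) →
  (∀ l, 1 ≤ l → l ≤ s → 1 ≤ 8 ^ (s - l) * cm w j l ∧ cm w j l ≤ 32) →
  ∃ T : Finset α, T ⊆ alw3 s f j \ V ∧
    (∀ i, (T.filter (fun x => b x = i)).card = 1) ∧ R.r T = n ∧
    ∑ x ∈ T, (if 2 ^ (s + 2) ≤ f x then 64 else w (f x)) ≤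
      2 ^ 47 * ∑ l ∈ Icc 1 s, 2 ^ (s - l) * ((s - l + 1 : ℕ) : ℝ) * cm w j l + 2 ^ 72

/-! ## The potential -/

/-- What the sets `i < j` took from the pool `(l, p)` while it is ahead of them. -/
def us (u : ℕ → ℕ → ℕ → ℕ) (l p j : ℕ) : ℕ :=
  ∑ i ∈ (range j).filter (fun i => i / 2 ^ l + 2 ≤ p), u i l p

/-- The rate of the pool `(l, p)` for the set `i`. -/
noncomputable def dr (k s l p i : ℕ) : ℝ :=
  ∑ m ∈ Icc l s, if p / 2 ^ (m - l) = i / 2 ^ m + 2 then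
    2 ^ 49 * 2 ^ (s - m) * ((s - m + 1 : ℕ) : ℝ) / k * (2 ^ l / 2 ^ m) else 0

/-- The sum of the rates for `i < j`. -/
noncomputable def ds (k s l p j : ℕ) : ℝ := ∑ i ∈ range j, dr k s l p i

/-- The potential. -/
noncomputable def pot3 (k s : ℕ) (u : ℕ → ℕ → ℕ → ℕ) (ut : ℕ → ℕ) (j : ℕ) : ℝ :=
  ∑ l ∈ Icc 1 s, ∑ p ∈ range (2 ^ (s + 2 - l)),
      Real.exp ((us u l p j : ℝ) / k - ds k s l p j) / 4 ^ (s - l) +
    128 / k * (∑ i ∈ range j, (ut i : ℝ) - 2 ^ 66 * j)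

/-- The weight of the pool `(l, p)` for the set `j`. -/
noncomputable def wp (k s : ℕ) (u : ℕ → ℕ → ℕ → ℕ) (l p j : ℕ) : ℝ :=
  Real.exp ((us u l p j : ℝ) / k - ds k s l p (j + 1)) / 4 ^ (s - l)

/-- The weight of the label `r` for the set `j`. -/
noncomputable def wl (k s : ℕ) (u : ℕ → ℕ → ℕ → ℕ) (j r : ℕ) : ℝ :=
  ∑ l ∈ Icc 1 s, if j / 2 ^ l + 2 ≤ r / 2 ^ l then wp k s u l (r / 2 ^ l) j else 0

/-- **MT3-POTI** (identity). PROOF. For `1 ≤ l ≤ s` and `r / 2^l = j / 2^l + 2`, `1 ≤ l' ≤ s`: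
`j / 2^l' + 2 ≤ r / 2^l'` iff `l' ≤ l` (for `l' > l`, with `A = j / 2^l`,
`r / 2^l' = (A + 2) / 2^(l'-l) ≤ A / 2^(l'-l) + 1`; for `l' < l`,
`r / 2^l' ≥ 2^(l-l') (A + 2)` and `j / 2^l' < 2^(l-l') (A + 1)`). The labels `r` of the `Ico` are
grouped by `p = r / 2^l'`, `2^l'` labels each; `p` runs over the `p` with `p / 2^(l-l') = A + 2`,
all `< 2^(s+2-l')`. So `cm (wl ..) j l = 2/2^l ∑ l' ∈ Icc 1 l, 2^l' ∑ p with p / 2^(l-l') = A + 2,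
wp l' p j`; exchange the sums over `l` and `l'`. -/
def G_POTI : Prop := ∀ (k s : ℕ) (u : ℕ → ℕ → ℕ → ℕ) (j : ℕ), 0 < k → 1 ≤ s → j < 2 ^ s →
  2 ^ 47 * ∑ l ∈ Icc 1 s, 2 ^ (s - l) * ((s - l + 1 : ℕ) : ℝ) * cm (wl k s u j) j l =
    ∑ l ∈ Icc 1 s, ∑ p ∈ range (2 ^ (s + 2 - l)), wp k s u l p j * (k / 2 * dr k s l p j)

/-- **MT3-POTS3** (the potential does not increase), from `G_POTI`. PROOF. For each `(l, p)` let
`z = wp k s u l p j`. If `j / 2^l + 2 ≤ p` then `us` grows by `u j l p`, and the summand at `j + 1`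
is `z exp (u/k) ≤ z (1 + 2 u / k)` (`u ≤ k`); otherwise it is `z`. The summand at `j` is
`z exp (dr) ≥ z (1 + dr)`. So `pot3 (j+1) - pot3 j ≤ (2/k) (∑ [..] z u j l p + 64 ut j - ∑ z (k/2) dr
- 2^72) ≤ 0` (`128 · 2^66 / k = (2/k) 2^72`). -/
def G_POTS3 : Prop := ∀ (k s : ℕ) (u : ℕ → ℕ → ℕ → ℕ) (ut : ℕ → ℕ) (j : ℕ), 0 < k → 1 ≤ s →
  j < 2 ^ s → (∀ l p, u j l p ≤ k) →
  (∑ l ∈ Icc 1 s, ∑ p ∈ range (2 ^ (s + 2 - l)),
      (if j / 2 ^ l + 2 ≤ p then wp k s u l p j * u j l p else 0) + 64 * ut j ≤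
    2 ^ 47 * ∑ l ∈ Icc 1 s, 2 ^ (s - l) * ((s - l + 1 : ℕ) : ℝ) * cm (wl k s u j) j l +
      2 ^ 72) →
  pot3 k s u ut (j + 1) ≤ pot3 k s u ut j

/-- **MT3-POTB3** (bounds from the potential). PROOF. `pot3 0 = ∑ l ∈ Icc 1 s, 4 · 2^(-(s-l)) ≤ 8`.
*Rates:* for given `m ≥ l` the number of `i` with `i / 2^m + 2 = p / 2^(m-l)` is at most `2^m`, so
`0 ≤ ds l p j ≤ ∑ m ∈ Icc l s, 2^49 2^(s-m) (s-m+1) / k · 2^l ≤ 2^50 2^s (s-l+1) / k ≤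
2^(-20) (s-l+1)`. Let `pot3 j ≤ 8`, `j ≤ 2^s`. *Top:* the exponential sum is `≥ 0`, so
`∑ ut i ≤ 8k/128 + 2^66 2^s ≤ k/16 + k/16`. *Exponential sum:* `≤ 8 + 128 · 2^66 · 2^s / k ≤ 16`, so
each summand is `≤ 16`: `us / k ≤ log 16 + (s-l) log 4 + 2^(-20) (s-l+1) ≤ 16 (s-l+1)`.
*Weights:* `wl j r ≤` the exponential sum (for `r < 2^(s+2)`; `wp l p j ≤` the summand as
`dr ≥ 0`) `≤ 16`, so `cm ≤ 32`. For `r / 2^l = j / 2^l + 2`: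
`wl j r ≥ wp l (j/2^l+2) j ≥ 4^(-(s-l)) exp (- 2^(-20) (s-l+1)) ≥ 8^(-(s-l)) / 2`, so
`cm ≥ 8^(-(s-l))`. -/
def G_POTB3 : Prop := ∀ (k s : ℕ) (u : ℕ → ℕ → ℕ → ℕ) (ut : ℕ → ℕ) (j : ℕ), 1 ≤ s →
  2 ^ 70 * 2 ^ s ≤ k → j ≤ 2 ^ s →
  pot3 k s u ut 0 ≤ 8 ∧
  (pot3 k s u ut j ≤ 8 →
    8 * ∑ i ∈ range j, ut i ≤ k ∧
    (∀ l, 1 ≤ l → l ≤ s → ∀ p < 2 ^ (s + 2 - l), us u l p j ≤ 16 * (s - l + 1) * k) ∧
    (j < 2 ^ s → ∀ l, 1 ≤ l → l ≤ s → 1 ≤ 8 ^ (s - l) * cm (wl k s u j) j l ∧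
      cm (wl k s u j) j l ≤ 32))

/-! ## Assembly -/

/-- The selected sets. -/
def Good3 {α : Type} [Fintype α] [DecidableEq α] (R : RankFn α) (n k s : ℕ) (b : α → Fin n)
    (f : α → ℕ) (T : ℕ → Finset α) (j : ℕ) : Prop :=
  (∀ i < j, T i ⊆ alw3 s f i ∧ (∀ a, ((T i).filter (fun x => b x = a)).card = 1) ∧
    R.r (T i) = n) ∧
  (∀ i < j, ∀ i' < j, i ≠ i' → Disjoint (T i) (T i')) ∧
  pot3 k s (fun i l p => (T i ∩ pool l p f).card) (fun i => (T i ∩ tp s f).card) j ≤ 8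

/-- **MT3-STEP3**, from `G_STEPW3`, `G_POTS3`, `G_POTB3`. PROOF. As `mt2_step2` (landed:
`Pool/Agent/Helper88/MT2/STEP2.lean`). `V = (range j).biUnion T`. *Level `1 ≤ l ≤ s`,
`p = j / 2^l + 2`:* every `i < j` has `i / 2^l + 2 ≤ p`, so `|V ∩ pool l p f| ≤ us l p j ≤
16 (s-l+1) k`. *Level `0`:* if `x ∈ T i ∩ pool 0 (j+2) f`, `i < j`, then `f x = j + 2 < 2^(s+2)`, so
`(j+2) / 2^l = i / 2^l + 2` for some `l ≤ s`, `l ≥ 1` as `i ≠ j`, so `i / 2 + 2 ≤ (j+2) / 2`, and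
`x ∈ pool 1 ((j+2)/2) f`: `|V ∩ pool 0 (j+2) f| ≤ us 1 ((j+2)/2) j ≤ 16 s k`. *Top:* `G_POTB3`.
`w = wl k s u j` with `u i l p = |T i ∩ pool l p f|`: `≥ 0`, `wl (j+2) = 0` (`j / 2^l + 2 ≤ (j+2)/2^l`
fails for `l ≥ 1`), positive on the pools of `j`. `G_STEPW3` gives `T_j`; take
`T' = Function.update T j T_j`. The left side of `G_STEPW3` is
`∑ l p, [j/2^l+2 ≤ p] wp l p j |T_j ∩ pool l p f| + 64 |T_j ∩ tp|` (`p = f x / 2^l < 2^(s+2-l)` iff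
`f x < 2^(s+2)`). `pot3`, `us`, `wp`, `wl` at `j` are the same for `T` and `T'`;
`|T_j ∩ ..| ≤ |T_j| = n ≤ k`; `G_POTS3`. -/
def G_STEP3 : Prop := ∀ (α : Type) [Fintype α] [DecidableEq α] (R : RankFn α) (n k h s : ℕ)
  (b : α → Fin n) (t : α → Fin k) (a : α → Fin n) (f : α → ℕ) (T : ℕ → Finset α) (j : ℕ),
  2 ≤ k → 0 < n → n ≤ k → k ≤ 2 ^ h → 2 ^ h ≤ 2 * k → 1 ≤ s → s + 70 ≤ h → h ≤ 128 * s →
  2 ^ 70 * 2 ^ s ≤ k → j < 2 ^ s → Setup R n k b t a → Lab3 R n k h s b t a f →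
  Good3 R n k s b f T j → ∃ T' : ℕ → Finset α, Good3 R n k s b f T' (j + 1)

/-- **MT3-SEL3**, from `G_LAB3`, `G_CARD`, `G_X`, `G_STEP3`, `G_POTB3`. PROOF. As `mt2_sel2`
(landed: `Pool/Agent/Helper80/MT2/SEL2.lean`). `n = 0`: empty sets. `|α| = n k`; every class of `t`
has at most `n` elements (independent), so there is an index `a : α → Fin n`, injective on every
class. `Setup`: no loops from `Y = {x}`. `Lab3` from `G_LAB3` with `𝓤 = Vf R n k h b t a`,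
`X = Xfam R b t` and `G_X`. Induction on `j ≤ 2^s` with `G_STEP3`; `j = 0`: `G_POTB3`.
`s + 70 ≤ h` from `2^(s+70) ≤ k ≤ 2^h`. -/
def G_SEL3 : Prop := ∀ (α : Type) [Fintype α] [DecidableEq α] (R : RankFn α) (n k h s : ℕ)
  (b : α → Fin n) (t : α → Fin k), 2 ≤ k → n ≤ k → k ≤ 2 ^ h → 2 ^ h ≤ 2 * k → 1 ≤ s →
  h ≤ 128 * s → 2 ^ 70 * 2 ^ s ≤ k → R.r univ = n →
  (∀ i, (univ.filter (fun x => b x = i)).card = k) →
  (∀ (j : Fin k) (Y : Finset α), (∀ x ∈ Y, t x = j) → Y.card ≤ R.r Y) →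
  ∃ T : ℕ → Finset α, (∀ i < 2 ^ s, (∀ a, ((T i).filter (fun x => b x = a)).card = 1) ∧
    R.r (T i) = n) ∧ ∀ i < 2 ^ s, ∀ i' < 2 ^ s, i ≠ i' → Disjoint (T i) (T i')

/-- **MT3-NUM3** (numbers). PROOF. `c = 2^(-71)`, `h = Nat.clog 2 k`: `k ≤ 2^h < 2k`. If `k < 2^71`
take `s = 0`. Otherwise `s` maximal with `2^70 2^s ≤ k`: `s ≥ 1`, `k < 2^(71+s)`, and
`2^h ≤ 2k < 2^(72+s)`, so `h ≤ 71 + s ≤ 128 s`. -/
def G_NUM3 : Prop := ∃ c : ℝ, 0 < c ∧ ∀ k : ℕ, 2 ≤ k → ∃ h s : ℕ, k ≤ 2 ^ h ∧ 2 ^ h ≤ 2 * k ∧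
  c * k ≤ (2 ^ s : ℕ) ∧ (s = 0 ∨ (1 ≤ s ∧ h ≤ 128 * s ∧ 2 ^ 70 * 2 ^ s ≤ k))

/-- **MT3-TOP3** (the result), from `G_SEL3`, `G_NUM3`. PROOF. As `mt2_top2` (landed:
`Pool/Agent/Helper37/MT2/TOP2.lean`), only the numbers differ. -/
def G_TOP3 : Prop := ∃ c : ℝ, 0 < c ∧
  ∀ (α : Type) (M : Matroid α) (n k : ℕ), 2 ≤ k → n ≤ k →
    M.eRank = (n : ℕ∞) →
    (∃ B : Fin k → Set α, (∀ i, M.IsBase (B i)) ∧
        (Pairwise fun i j => Disjoint (B i) (B j)) ∧ (⋃ i, B i) = M.E) →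
    ∀ P : Fin n → Set α,
      (∀ i, (P i).encard = (k : ℕ∞)) →
      (Pairwise fun i j => Disjoint (P i) (P j)) →
      (⋃ i, P i) = M.E →
      ∃ (m : ℕ) (T : Fin m → Set α),
        c * k ≤ m ∧
        (∀ j, M.IsBase (T j)) ∧
        (∀ j, ∀ i, (T j ∩ P i).encard = 1) ∧
        (Pairwise fun j j' => Disjoint (T j) (T j'))

end Pool.Agent.Helper28.MT3
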