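import Mathlib
import Pool.Agent.Helper28.MT.Goals

/-!
# Project MT: the weighted theorem of Rado
-/

set_option autoImplicit false

namespace Pool.Agent.Helper28.MT

open Finset
open Pool.Agent.Helper55.Rota

variable {α : Type} [Fintype α] [DecidableEq α]

/-- restriction to `A` after contraction of `B` -/
def minor (R : RankFn α) (A B : Finset α) : RankFn α where
  r Y := R.r ((Y ∩ A) ∪ B) - R.r B
  empty := by simp
  mono := by
    intro X Y h
    have h1 : (X ∩ A) ∪ B ⊆ (Y ∩ A) ∪ B :=
      union_subset_union (inter_subset_inter h (Subset.refl A)) (Subset.refl B)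
    have := R.mono h1
    omega
  insert_le := by
    intro X x
    by_cases hx : x ∈ A
    · have h1 : (insert x X ∩ A) ∪ B = insert x ((X ∩ A) ∪ B) := by
        ext a; simp only [mem_union, mem_inter, mem_insert]
        constructor
        · rintro (⟨rfl | h, h2⟩ | h)
          · exact Or.inl rfl
          · exact Or.inr (Or.inl ⟨h, h2⟩)
          · exact Or.inr (Or.inr h)
        · rintro (rfl | ⟨h, h2⟩ | h)
          · exact Or.inl ⟨Or.inl rfl, hx⟩
          · exact Or.inl ⟨Or.inr h, h2⟩
          · exact Or.inr h
      have h2 := R.insert_le ((X ∩ A) ∪ B) x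
      have h3 : R.r B ≤ R.r ((X ∩ A) ∪ B) := R.mono subset_union_right
      rw [h1]
      omega
    · have h1 : insert x X ∩ A = X ∩ A := by
        ext a; simp only [mem_inter, mem_insert]
        constructor
        · rintro ⟨rfl | h, h2⟩
          · exact absurd h2 hx
          · exact ⟨h, h2⟩
        · rintro ⟨h, h2⟩
          exact ⟨Or.inr h, h2⟩
      rw [h1]
      omega
  submod := by
    intro X Y
    have h1 := R.submod ((X ∩ A) ∪ B) ((Y ∩ A) ∪ B)
    have e1 : ((X ∩ A) ∪ B) ∪ ((Y ∩ A) ∪ B) = ((X ∪ Y) ∩ A) ∪ B := by
      ext a; simp only [mem_union, mem_inter]; tauto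
    have e2 : ((X ∩ A) ∪ B) ∩ ((Y ∩ A) ∪ B) = ((X ∩ Y) ∩ A) ∪ B := by
      ext a; simp only [mem_union, mem_inter]; tauto
    rw [e1, e2] at h1
    have f1 : R.r B ≤ R.r ((X ∩ A) ∪ B) := R.mono subset_union_right
    have f2 : R.r B ≤ R.r ((Y ∩ A) ∪ B) := R.mono subset_union_right
    have f3 : R.r B ≤ R.r (((X ∪ Y) ∩ A) ∪ B) := R.mono subset_union_right
    have f4 : R.r B ≤ R.r (((X ∩ Y) ∩ A) ∪ B) := R.mono subset_union_right
    omega

omit [Fintype α] in
lemma minor_r (R : RankFn α) (A B Y : Finset α) :
    (minor R A B).r Y + R.r B = R.r ((Y ∩ A) ∪ B) := by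
  have f1 : R.r B ≤ R.r ((Y ∩ A) ∪ B) := R.mono subset_union_right
  change R.r ((Y ∩ A) ∪ B) - R.r B + R.r B = _
  omega

/-- the direct sum of the minors of the levels -/
def rv (R : RankFn α) (v : α → ℕ) (M : ℕ) : RankFn α where
  r Y := ∑ m ∈ range (M + 1), (minor R (lev v m) (lev v (m + 1))).r Y
  empty := by simp [RankFn.empty]
  mono := fun h => sum_le_sum (fun m _ => (minor R (lev v m) (lev v (m + 1))).mono h)
  insert_le := by
    intro X x
    have h : ∀ m ∈ range (M + 1), (minor R (lev v m) (lev v (m + 1))).r (insert x X)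
        ≤ (minor R (lev v m) (lev v (m + 1))).r X + (if m = v x then 1 else 0) := by
      intro m _
      by_cases hm : m = v x
      · rw [if_pos hm]
        exact (minor R (lev v m) (lev v (m + 1))).insert_le X x
      · rw [if_neg hm, add_zero]
        have h1 : (insert x X ∩ lev v m) ∪ lev v (m + 1) = (X ∩ lev v m) ∪ lev v (m + 1) := by
          ext a
          simp only [mem_union, mem_inter, mem_insert, mem_lev]
          constructor
          · rintro (⟨rfl | h, h2⟩ | h)
            · exact Or.inr (by omega)
            · exact Or.inl ⟨h, h2⟩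
            · exact Or.inr h
          · rintro (⟨h, h2⟩ | h)
            · exact Or.inl ⟨Or.inr h, h2⟩
            · exact Or.inr h
        have h2 := minor_r R (lev v m) (lev v (m + 1)) (insert x X)
        have h3 := minor_r R (lev v m) (lev v (m + 1)) X
        rw [h1] at h2
        omega
    refine (sum_le_sum h).trans ?_
    rw [sum_add_distrib, sum_ite_eq']
    split_ifs <;> omega
  submod := by
    intro X Y
    rw [← sum_add_distrib, ← sum_add_distrib]
    exact sum_le_sum (fun m _ => (minor R (lev v m) (lev v (m + 1))).submod X Y)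

lemma rv_r (R : RankFn α) (v : α → ℕ) (M : ℕ) (Y : Finset α) :
    (rv R v M).r Y = ∑ m ∈ range (M + 1), (minor R (lev v m) (lev v (m + 1))).r Y := rfl

lemma lev_zero (v : α → ℕ) : lev v 0 = univ := by
  ext x; simp [mem_lev]

lemma lev_succ_subset (v : α → ℕ) (m : ℕ) : lev v (m + 1) ⊆ lev v m := by
  intro x hx
  rw [mem_lev] at hx ⊢
  omega

lemma lev_empty {v : α → ℕ} {M : ℕ} (h : ∀ x, v x ≤ M) {m : ℕ} (hm : M < m) : lev v m = ∅ := by
  ext x
  rw [mem_lev]
  constructor
  · intro h1
    have := h x
    omega
  · intro h1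
    exact absurd h1 (notMem_empty x)

/-- layer cake -/
lemma layer {v : α → ℕ} {M : ℕ} (h : ∀ x, v x ≤ M) (T : Finset α) :
    ∑ x ∈ T, v x = ∑ m ∈ range M, (T ∩ lev v (m + 1)).card := by
  have h1 : ∀ m, (T ∩ lev v (m + 1)).card = ∑ x ∈ T, if m < v x then 1 else 0 := by
    intro m
    rw [← card_filter]
    congr 1
    ext x
    rw [mem_inter, mem_lev, mem_filter]
    exact Iff.rfl
  rw [sum_congr rfl (fun m _ => h1 m), sum_comm]
  apply sum_congr rfl
  intro x _
  rw [← card_filter]
  have h2 : (range M).filter (fun m => m < v x) = range (v x) := by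
    ext m
    rw [mem_filter, mem_range, mem_range]
    have := h x
    omega
  rw [h2, card_range]

omit [Fintype α] [DecidableEq α] in
/-- sums over a transversal -/
lemma sum_transversal {n : ℕ} {b : α → Fin n} {T : Finset α}
    (hT : ∀ i, (T.filter (fun x => b x = i)).card = 1) (y : Fin n → ℕ) :
    ∑ x ∈ T, y (b x) = ∑ i, y i := by
  rw [← sum_fiberwise T b (fun x => y (b x))]
  apply sum_congr rfl
  intro i _
  rw [sum_congr rfl (g := fun _ => y i) (fun x hx => by rw [(mem_filter.mp hx).2]), sum_const,
    hT i, one_smul]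

omit [Fintype α] [DecidableEq α] in
lemma card_transversal {n : ℕ} {b : α → Fin n} {T : Finset α}
    (hT : ∀ i, (T.filter (fun x => b x = i)).card = 1) : T.card = n := by
  have h := sum_transversal hT (fun _ => 1)
  simpa using h

/-- weak duality -/
lemma weak (R : RankFn α) {n : ℕ} (b : α → Fin n) (S : Finset α) (c : α → ℕ) {T0 : Finset α}
    (hT0 : T0 ⊆ S) (ht : ∀ i, (T0.filter (fun x => b x = i)).card = 1) (hr : R.r T0 = n)
    (y : Fin n → ℕ) (v : α → ℕ) (M : ℕ) (hM : ∀ x, v x ≤ M)
    (hf : ∀ x ∈ S, y (b x) ≤ v x + c x) :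
    ∑ i, y i ≤ ∑ x ∈ T0, c x + ∑ m ∈ range M, R.r (lev v (m + 1)) := by
  rw [← sum_transversal ht y]
  have h1 : ∑ x ∈ T0, y (b x) ≤ ∑ x ∈ T0, (v x + c x) := sum_le_sum (fun x hx => hf x (hT0 hx))
  rw [sum_add_distrib, layer hM T0] at h1
  have h2 : ∑ m ∈ range M, (T0 ∩ lev v (m + 1)).card ≤ ∑ m ∈ range M, R.r (lev v (m + 1)) := by
    apply sum_le_sum
    intro m _
    have h3 : R.r (T0 ∩ lev v (m + 1)) = (T0 ∩ lev v (m + 1)).card :=
      indep_sub (by rw [hr, card_transversal ht]) inter_subset_left
    rw [← h3]
    exact R.mono inter_subset_right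
  omega

/-- the first case: the theorem of Rado for the direct sum of the minors -/
lemma case_one [Nonempty α] (R : RankFn α) {n : ℕ} (b : α → Fin n) (S : Finset α) (c : α → ℕ)
    (hn : R.r univ = n) (y : Fin n → ℕ) (v : α → ℕ) (M : ℕ) (hM : ∀ x, v x ≤ M)
    (hcl : ∀ m, Closed R (lev v m)) (hf : ∀ x ∈ S, y (b x) ≤ v x + c x)
    (hR : ∀ I : Finset (Fin n),
      I.card ≤ (rv R v M).r (S.filter (fun x => y (b x) = v x + c x) ∩ blkU b I)) :
    ∃ T : Finset α, Opt R n b S c T y v := by
  set E := S.filter (fun x => y (b x) = v x + c x) with hE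
  obtain ⟨f, hf1, hf2⟩ := (rv R v M).rado (univ : Finset (Fin n)) _
    (fun i => E.filter (fun x => b x = i)) rfl (by
      intro J _
      have h1 : J.biUnion (fun i => E.filter (fun x => b x = i)) = E ∩ blkU b J := by
        ext x
        simp only [mem_biUnion, mem_filter, mem_inter, mem_blkU]
        constructor
        · rintro ⟨i, hi, hx, rfl⟩
          exact ⟨hx, hi⟩
        · rintro ⟨hx, hi⟩
          exact ⟨b x, hi, hx, rfl⟩
      rw [h1]
      exact hR J)
  have hfb : ∀ i, b (f i) = i := fun i => (mem_filter.mp (hf1 i (mem_univ i))).2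
  have hfE : ∀ i, f i ∈ E := fun i => (mem_filter.mp (hf1 i (mem_univ i))).1
  set T := (univ : Finset (Fin n)).image f with hT
  have hTE : T ⊆ E := by
    intro x hx
    rw [hT, mem_image] at hx
    obtain ⟨i, _, rfl⟩ := hx
    exact hfE i
  have htr : ∀ i, (T.filter (fun x => b x = i)).card = 1 := by
    intro i
    rw [card_eq_one]
    refine ⟨f i, ?_⟩
    ext x
    rw [mem_filter, mem_singleton, hT, mem_image]
    constructor
    · rintro ⟨⟨j, _, rfl⟩, h2⟩
      rw [hfb] at h2
      rw [h2]
    · rintro rfl
      exact ⟨⟨i, mem_univ i, rfl⟩, hfb i⟩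
  have hTn : T.card = n := card_transversal htr
  rw [card_univ, Fintype.card_fin] at hf2
  -- the numbers of the levels
  have hga : ∀ m, (minor R (lev v m) (lev v (m + 1))).r T
      ≤ (T.filter (fun x => v x = m)).card := by
    intro m
    have h1 := minor_r R (lev v m) (lev v (m + 1)) T
    have h2 : (T ∩ lev v m) ∪ lev v (m + 1)
        = T.filter (fun x => v x = m) ∪ lev v (m + 1) := by
      ext x
      simp only [mem_union, mem_inter, mem_filter, mem_lev]
      constructor
      · rintro (⟨h3, h4⟩ | h3)
        · by_cases h5 : v x = m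
          · exact Or.inl ⟨h3, h5⟩
          · exact Or.inr (by omega)
        · exact Or.inr h3
      · rintro (⟨h3, h4⟩ | h3)
        · exact Or.inl ⟨h3, by omega⟩
        · exact Or.inr h3
    rw [h2] at h1
    have h3 := R.union_le (T.filter (fun x => v x = m)) (lev v (m + 1))
    have h4 := R.le_card (T.filter (fun x => v x = m))
    omega
  have hgr : ∀ m, (minor R (lev v m) (lev v (m + 1))).r T + R.r (lev v (m + 1))
      ≤ R.r (lev v m) := by
    intro m
    rw [minor_r]
    exact R.mono (union_subset inter_subset_right (lev_succ_subset v m))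
  have hsa : ∑ m ∈ range (M + 1), (T.filter (fun x => v x = m)).card = n := by
    rw [← hTn]
    exact (card_eq_sum_card_fiberwise (fun x _ => mem_coe.mpr (mem_range.mpr (by
      have := hM x
      omega)))).symm
  have hsr : ∑ m ∈ range (M + 1), R.r (lev v (m + 1)) + n
      = ∑ m ∈ range (M + 1), R.r (lev v m) := by
    have h1 := sum_range_succ (fun m => R.r (lev v m)) (M + 1)
    have h2 := sum_range_succ' (fun m => R.r (lev v m)) (M + 1)
    rw [lev_empty hM (Nat.lt_succ_self M), R.empty, add_zero] at h1
    rw [lev_zero, hn] at h2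
    omega
  have hsg : n ≤ ∑ m ∈ range (M + 1), (minor R (lev v m) (lev v (m + 1))).r T := hf2
  have heqa : ∀ m ∈ range (M + 1), (minor R (lev v m) (lev v (m + 1))).r T
      = (T.filter (fun x => v x = m)).card := by
    have h1 : ∑ m ∈ range (M + 1), (minor R (lev v m) (lev v (m + 1))).r T
        = ∑ m ∈ range (M + 1), (T.filter (fun x => v x = m)).card :=
      le_antisymm (sum_le_sum (fun m _ => hga m)) (by omega)
    exact (sum_eq_sum_iff_of_le (fun m _ => hga m)).mp h1
  have heqr : ∀ m ∈ range (M + 1), (minor R (lev v m) (lev v (m + 1))).r T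
      + R.r (lev v (m + 1)) = R.r (lev v m) := by
    have h1 : ∑ m ∈ range (M + 1), ((minor R (lev v m) (lev v (m + 1))).r T
        + R.r (lev v (m + 1))) = ∑ m ∈ range (M + 1), R.r (lev v m) := by
      apply le_antisymm (sum_le_sum (fun m _ => hgr m))
      rw [sum_add_distrib]
      omega
    exact (sum_eq_sum_iff_of_le (fun m _ => hgr m)).mp h1
  have hsplit : ∀ u, (T ∩ lev v u).card
      = (T.filter (fun x => v x = u)).card + (T ∩ lev v (u + 1)).card := by
    intro u
    rw [← card_union_of_disjoint]
    · congr 1
      ext x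
      simp only [mem_union, mem_inter, mem_filter, mem_lev]
      constructor
      · rintro ⟨h3, h4⟩
        by_cases h5 : v x = u
        · exact Or.inl ⟨h3, h5⟩
        · exact Or.inr ⟨h3, by omega⟩
      · rintro (⟨h3, h4⟩ | ⟨h3, h4⟩)
        · exact ⟨h3, by omega⟩
        · exact ⟨h3, by omega⟩
    · rw [disjoint_left]
      intro x hx hx2
      rw [mem_filter] at hx
      rw [mem_inter, mem_lev] at hx2
      omega
  -- downward induction
  have key : ∀ d u, M + 1 ≤ u + d → (T ∩ lev v u).card = R.r (lev v u) ∧
      (T ∩ lev v u).card ≤ R.r (T ∩ lev v u) := by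
    intro d
    induction d with
    | zero =>
      intro u hu
      rw [lev_empty hM (by omega)]
      simp [R.empty]
    | succ d ih =>
      intro u hu
      by_cases h1 : M < u
      · rw [lev_empty hM h1]
        simp [R.empty]
      · obtain ⟨h2, h3⟩ := ih (u + 1) (by omega)
        have h4 := heqa u (mem_range.mpr (by omega))
        have h5 := heqr u (mem_range.mpr (by omega))
        have h6 := hsplit u
        refine ⟨by omega, ?_⟩
        have h7 := R.add_gain (X := T ∩ lev v (u + 1)) (V := lev v (u + 1)) inter_subset_right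
          (T ∩ lev v u)
        have h8 : T ∩ lev v (u + 1) ∪ T ∩ lev v u = T ∩ lev v u :=
          union_eq_right.mpr (inter_subset_inter_left (lev_succ_subset v u))
        have h9 := minor_r R (lev v u) (lev v (u + 1)) T
        rw [union_comm] at h9
        rw [h8] at h7
        omega
  refine ⟨T, hTE.trans (filter_subset _ _), htr, ?_, hcl, hf, ?_, fun m => (key (M + 1) m (by omega)).1⟩
  · have h1 := (key (M + 1) 0 (by omega)).2
    rw [lev_zero, inter_univ, hTn] at h1
    have h2 := R.le_card T
    omega
  · intro x hx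
    exact (mem_filter.mp (hTE hx)).2

theorem mt_w : G_W := by
  intro α _ _ R n b S c hn hloop hrado
  by_cases hne : Nonempty α
  swap
  · rw [not_nonempty_iff] at hne
    have h0 : n = 0 := by
      rw [← hn, univ_eq_empty, R.empty]
    subst h0
    refine ⟨∅, fun _ => 0, fun _ => 0, empty_subset _, fun i => i.elim0, R.empty,
      fun m x => hne.elim x, fun x => hne.elim x, fun x => hne.elim x, ?_⟩
    intro m
    have h1 : lev (fun _ : α => 0) m = ∅ := by
      ext x
      exact hne.elim x
    rw [h1]
    simp [R.empty]
  -- a transversal basis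
  obtain ⟨f, hf1, hf2⟩ := R.rado (univ : Finset (Fin n)) _
    (fun i => S.filter (fun x => b x = i)) rfl (by
      intro J _
      have h1 : J.biUnion (fun i => S.filter (fun x => b x = i)) = S ∩ blkU b J := by
        ext x
        simp only [mem_biUnion, mem_filter, mem_inter, mem_blkU]
        constructor
        · rintro ⟨i, hi, hx, rfl⟩
          exact ⟨hx, hi⟩
        · rintro ⟨hx, hi⟩
          exact ⟨b x, hi, hx, rfl⟩
      rw [h1]
      exact hrado J)
  have hfb : ∀ i, b (f i) = i := fun i => (mem_filter.mp (hf1 i (mem_univ i))).2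
  have hfS : ∀ i, f i ∈ S := fun i => (mem_filter.mp (hf1 i (mem_univ i))).1
  obtain ⟨T0, hT0⟩ : ∃ T0, T0 = (univ : Finset (Fin n)).image f := ⟨_, rfl⟩
  rw [← hT0, card_univ, Fintype.card_fin] at hf2
  have hT0S : T0 ⊆ S := by
    intro x hx
    rw [hT0, mem_image] at hx
    obtain ⟨i, _, rfl⟩ := hx
    exact hfS i
  have htr : ∀ i, (T0.filter (fun x => b x = i)).card = 1 := by
    intro i
    rw [card_eq_one]
    refine ⟨f i, ?_⟩
    ext x
    rw [mem_filter, mem_singleton, hT0, mem_image]
    constructor
    · rintro ⟨⟨j, _, rfl⟩, h2⟩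
      rw [hfb] at h2
      rw [h2]
    · rintro rfl
      exact ⟨⟨i, mem_univ i, rfl⟩, hfb i⟩
  have hrT0 : R.r T0 = n := by
    have h1 := R.le_card T0
    rw [card_transversal htr] at h1
    omega
  -- the induction
  have main : ∀ (N : ℕ) (y : Fin n → ℕ) (v : α → ℕ) (M : ℕ), (∀ x, v x ≤ M) →
      (∀ m, Closed R (lev v m)) → (∀ x ∈ S, y (b x) ≤ v x + c x) →
      ∑ i, y i + N = ∑ x ∈ T0, c x + ∑ m ∈ range M, R.r (lev v (m + 1)) →
      ∃ (T : Finset α) (y : Fin n → ℕ) (v : α → ℕ), Opt R n b S c T y v := by
    intro N
    induction N using Nat.strong_induction_on with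
    | _ N ih =>
      intro y v M hM hcl hfe hD
      by_cases hR : ∀ I : Finset (Fin n),
          I.card ≤ (rv R v M).r (S.filter (fun x => y (b x) = v x + c x) ∩ blkU b I)
      · obtain ⟨T, hT⟩ := case_one R b S c hn y v M hM hcl hfe hR
        exact ⟨T, y, v, hT⟩
      · push Not at hR
        obtain ⟨I, hI⟩ := hR
        obtain ⟨Y, hY⟩ : ∃ Y, Y = S.filter (fun x => y (b x) = v x + c x) ∩ blkU b I := ⟨_, rfl⟩
        rw [← hY] at hI
        obtain ⟨v', hv'⟩ : ∃ v' : α → ℕ, v' = fun x =>
          if x ∈ cl R ((Y ∩ lev v (v x)) ∪ lev v (v x + 1)) then v x + 1 else v x := ⟨_, rfl⟩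
        obtain ⟨y', hy'⟩ : ∃ y' : Fin n → ℕ, y' = fun i => y i + if i ∈ I then 1 else 0 :=
          ⟨_, rfl⟩
        have hvle : ∀ x, v x ≤ v' x := by
          intro x
          rw [hv']
          dsimp only
          split_ifs <;> omega
        have hvle' : ∀ x, v' x ≤ v x + 1 := by
          intro x
          rw [hv']
          dsimp only
          split_ifs <;> omega
        have hlev : ∀ m, lev v' (m + 1) = cl R ((Y ∩ lev v m) ∪ lev v (m + 1)) := by
          intro m
          ext x
          rw [mem_lev]
          constructor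
          · intro h1
            rcases Nat.lt_or_ge m (v x) with h2 | h2
            · exact subset_cl R _ (mem_union_right _ (mem_lev.mpr h2))
            · have h3 := hvle' x
              have h4 : v x = m := by omega
              have h5 : v' x = v x + 1 := by omega
              rw [hv'] at h5
              dsimp only at h5
              split_ifs at h5 with h6
              · rwa [h4] at h6
              · omega
          · intro h1
            have h2 : x ∈ lev v m :=
              cl_subset (hcl m) (union_subset inter_subset_right (lev_succ_subset v m)) h1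
            rw [mem_lev] at h2
            rcases Nat.lt_or_ge m (v x) with h3 | h3
            · exact le_trans h3 (hvle x)
            · have h4 : v x = m := by omega
              rw [← h4] at h1
              rw [hv']
              dsimp only
              rw [if_pos h1]
              omega
        have hcl' : ∀ m, Closed R (lev v' m) := by
          intro m
          cases m with
          | zero => rw [lev_zero]; exact closed_univ R
          | succ m => rw [hlev]; exact closed_cl R _
        have hfe' : ∀ x ∈ S, y' (b x) ≤ v' x + c x := by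
          intro x hx
          have h1 := hfe x hx
          have h2 := hvle x
          rw [hy']
          dsimp only
          split_ifs with h3
          · by_cases h4 : y (b x) = v x + c x
            · have h5 : x ∈ Y := by
                rw [hY, mem_inter, mem_filter, mem_blkU]
                exact ⟨⟨hx, h4⟩, h3⟩
              have h6 : v' x = v x + 1 := by
                rw [hv']
                dsimp only
                rw [if_pos]
                exact subset_cl R _ (mem_union_left _ (mem_inter.mpr ⟨h5, mem_lev.mpr le_rfl⟩))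
              omega
            · omega
          · omega
        have hM' : ∀ x, v' x ≤ M + 1 := by
          intro x
          have h1 := hvle' x
          have h2 := hM x
          omega
        have hsum : ∑ m ∈ range (M + 1), R.r (lev v' (m + 1))
            = (rv R v M).r Y + ∑ m ∈ range M, R.r (lev v (m + 1)) := by
          rw [rv_r]
          have h1 : ∑ m ∈ range M, R.r (lev v (m + 1))
              = ∑ m ∈ range (M + 1), R.r (lev v (m + 1)) := by
            rw [sum_range_succ, lev_empty hM (Nat.lt_succ_self M), R.empty, add_zero]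
          rw [h1, ← sum_add_distrib]
          apply sum_congr rfl
          intro m _
          rw [hlev, r_cl, minor_r]
        have hsy : ∑ i, y' i = ∑ i, y i + I.card := by
          rw [hy', sum_add_distrib]
          congr 1
          rw [← card_filter]
          congr 1
          ext i
          simp
        have hweak := weak R b S c hT0S htr hrT0 y' v' (M + 1) hM' hfe'
        obtain ⟨N', hN'⟩ := Nat.exists_eq_add_of_le hweak
        refine ih N' ?_ y' v' (M + 1) hM' hcl' hfe' hN'.symm
        omega
  -- the start
  have hstart : ∀ m, Closed R (lev (fun _ : α => 0) m) := by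
    intro m
    cases m with
    | zero => rw [lev_zero]; exact closed_univ R
    | succ m =>
      intro x hx
      have h1 : lev (fun _ : α => 0) (m + 1) = ∅ :=
        lev_empty (M := 0) (fun _ => le_rfl) (Nat.succ_pos m)
      rw [h1] at hx
      rw [R.empty] at hx
      have h2 := hloop x
      have h3 : (insert x (∅ : Finset α)) = {x} := rfl
      rw [h3] at hx
      omega
  refine main (∑ x ∈ T0, c x) (fun _ => 0) (fun _ => 0) 0 (fun _ => le_rfl) hstart
    (fun x _ => Nat.zero_le _) ?_
  simp

end Pool.Agent.Helper28.MT
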